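import Pool.Agent.Helper953_LLS.Defs

namespace Pool.Agent.Helper953

open Finset

variable {V : Type*} [Fintype V] [DecidableEq V]

/-- The quadratic form of the digraph. -/
def Qf (D : Finset (V × V)) (x : V → ℝ) : ℝ := ∑ e ∈ D, x e.1 * x e.2

/-- The linear form of the digraph. -/
def Lf (D : Finset (V × V)) (x : V → ℝ) : ℝ := ∑ e ∈ D, (x e.1 - x e.2)

/-- The polar form of `Qf`. -/
def Bf (D : Finset (V × V)) (x y : V → ℝ) : ℝ := ∑ e ∈ D, (x e.1 * y e.2 + x e.2 * y e.1)

/-- Outdegree minus indegree. -/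
def sv (D : Finset (V × V)) (v : V) : ℝ := Lf D (Pi.single v 1)

omit [Fintype V] [DecidableEq V] in
theorem Lf_add (D : Finset (V × V)) (x y : V → ℝ) : Lf D (x + y) = Lf D x + Lf D y := by
  unfold Lf; rw [← Finset.sum_add_distrib]; apply Finset.sum_congr rfl; intro e _; simp; ring

omit [Fintype V] [DecidableEq V] in
theorem Lf_smul (D : Finset (V × V)) (c : ℝ) (x : V → ℝ) : Lf D (c • x) = c * Lf D x := by
  unfold Lf; rw [Finset.mul_sum]; apply Finset.sum_congr rfl; intro e _; simp; ring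

omit [Fintype V] [DecidableEq V] in
theorem Lf_neg (D : Finset (V × V)) (x : V → ℝ) : Lf D (-x) = - Lf D x := by
  have := Lf_smul D (-1) x
  simpa using this

omit [Fintype V] [DecidableEq V] in
theorem Lf_zero (D : Finset (V × V)) : Lf D 0 = 0 := by
  simp [Lf]

omit [Fintype V] [DecidableEq V] in
theorem Lf_sum {ι : Type*} (D : Finset (V × V)) (s : Finset ι) (f : ι → V → ℝ) :
    Lf D (∑ i ∈ s, f i) = ∑ i ∈ s, Lf D (f i) := by
  classical
  induction s using Finset.induction_on with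
  | empty => simp [Lf_zero]
  | insert a s ha ih => rw [Finset.sum_insert ha, Finset.sum_insert ha, Lf_add, ih]

theorem Lf_eq (D : Finset (V × V)) (x : V → ℝ) : Lf D x = ∑ v, x v * sv D v := by
  have h : x = ∑ v, x v • (Pi.single v (1:ℝ) : V → ℝ) := by
    funext w
    simp [Finset.sum_apply, Pi.single_apply]
  conv_lhs => rw [h]
  rw [Lf_sum]
  apply Finset.sum_congr rfl
  intro v _
  rw [Lf_smul]; rfl

omit [Fintype V] [DecidableEq V] in
theorem Bf_add_right (D : Finset (V × V)) (x y z : V → ℝ) :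
    Bf D x (y + z) = Bf D x y + Bf D x z := by
  unfold Bf; rw [← Finset.sum_add_distrib]; apply Finset.sum_congr rfl; intro e _; simp; ring

omit [Fintype V] [DecidableEq V] in
theorem Bf_zero_right (D : Finset (V × V)) (x : V → ℝ) : Bf D x 0 = 0 := by
  simp [Bf]

omit [Fintype V] [DecidableEq V] in
theorem Bf_sum_right {ι : Type*} (D : Finset (V × V)) (x : V → ℝ) (s : Finset ι)
    (f : ι → V → ℝ) : Bf D x (∑ i ∈ s, f i) = ∑ i ∈ s, Bf D x (f i) := by
  classical
  induction s using Finset.induction_on with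
  | empty => simp [Bf_zero_right]
  | insert a s ha ih => rw [Finset.sum_insert ha, Finset.sum_insert ha, Bf_add_right, ih]

omit [Fintype V] [DecidableEq V] in
theorem Qf_add (D : Finset (V × V)) (x y : V → ℝ) :
    Qf D (x + y) = Qf D x + Bf D x y + Qf D y := by
  unfold Qf Bf; rw [← Finset.sum_add_distrib, ← Finset.sum_add_distrib]
  apply Finset.sum_congr rfl; intro e _; simp; ring

/-- The quadratic functional `Q + κ L² + ℓ L`. -/
def Psi (D : Finset (V × V)) (κ ℓ : ℝ) (x : V → ℝ) : ℝ :=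
  Qf D x + κ * (Lf D x) ^ 2 + ℓ * Lf D x

omit [Fintype V] [DecidableEq V] in
/-- Averaging step: for a finite family of moves with zero sum, some move changes `Psi` by at
most the average of the second order terms. -/
theorem exists_step {Ω : Type*} (s : Finset Ω) (hs : s.Nonempty) (D : Finset (V × V))
    (κ ℓ : ℝ) (y : V → ℝ) (δ : Ω → V → ℝ) (h0 : ∑ ω ∈ s, δ ω = 0) (q : ℝ)
    (hq : ∑ ω ∈ s, (Qf D (δ ω) + κ * (Lf D (δ ω)) ^ 2) ≤ s.card * q) :
    ∃ ω ∈ s, Psi D κ ℓ (y + δ ω) ≤ Psi D κ ℓ y + q := by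
  by_contra hcon
  push Not at hcon
  have h1 : ∑ ω ∈ s, (Psi D κ ℓ y + q) < ∑ ω ∈ s, Psi D κ ℓ (y + δ ω) :=
    Finset.sum_lt_sum_of_nonempty hs hcon
  have h2 : ∀ ω ∈ s, Psi D κ ℓ (y + δ ω) = Psi D κ ℓ y + (Qf D (δ ω) + κ * (Lf D (δ ω)) ^ 2) +
      (Bf D y (δ ω) + (2 * κ * Lf D y + ℓ) * Lf D (δ ω)) := by
    intro ω _
    unfold Psi
    rw [Qf_add, Lf_add]; ring
  have h3 : ∑ ω ∈ s, Psi D κ ℓ (y + δ ω) = s.card * Psi D κ ℓ y +
      ∑ ω ∈ s, (Qf D (δ ω) + κ * (Lf D (δ ω)) ^ 2) := by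
    rw [Finset.sum_congr rfl h2, Finset.sum_add_distrib (f := fun ω => Psi D κ ℓ y +
      (Qf D (δ ω) + κ * (Lf D (δ ω)) ^ 2)), Finset.sum_add_distrib (f := fun ω => Bf D y (δ ω)),
      ← Finset.mul_sum, ← Bf_sum_right, ← Lf_sum, h0, Bf_zero_right, Lf_zero,
      Finset.sum_add_distrib (f := fun ω => Psi D κ ℓ y), Finset.sum_const, nsmul_eq_mul]
    ring
  rw [h3, Finset.sum_const, nsmul_eq_mul] at h1
  nlinarith

omit [Fintype V] [DecidableEq V] in
/-- Two point version of the averaging step. -/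
theorem exists_sign_step (D : Finset (V × V)) (κ ℓ : ℝ) (y δ : V → ℝ) :
    Psi D κ ℓ (y + δ) ≤ Psi D κ ℓ y + (Qf D δ + κ * (Lf D δ) ^ 2) ∨
    Psi D κ ℓ (y - δ) ≤ Psi D κ ℓ y + (Qf D δ + κ * (Lf D δ) ^ 2) := by
  have hQn : Qf D (-δ) = Qf D δ := by simp [Qf]
  have hLn : Lf D (-δ) = - Lf D δ := Lf_neg D δ
  obtain ⟨ω, _, hω⟩ := exists_step (Finset.univ : Finset Bool) Finset.univ_nonempty D κ ℓ y
    (fun b => if b then δ else -δ) (by simp) (Qf D δ + κ * (Lf D δ) ^ 2) (by
      simp [hQn, hLn]; ring_nf; rfl)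
  cases ω
  · right; simpa [sub_eq_add_neg] using hω
  · left; simpa using hω

/-- The `±1` vector of a set. -/
def chi (S : Finset V) : V → ℝ := fun v => if v ∈ S then 1 else -1

theorem cut_formula (D : Finset (V × V)) (S : Finset V) :
    (cutSize D S Sᶜ : ℝ) = (D.card - Qf D (chi S) + Lf D (chi S)) / 4 := by
  unfold cutSize Qf Lf
  rw [Finset.card_filter, Nat.cast_sum, Finset.card_eq_sum_ones, Nat.cast_sum,
    ← Finset.sum_sub_distrib, ← Finset.sum_add_distrib, Finset.sum_div]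
  apply Finset.sum_congr rfl
  intro e _
  unfold chi
  by_cases h1 : e.1 ∈ S <;> by_cases h2 : e.2 ∈ S <;> simp [h1, h2] <;> norm_num

theorem cut_formula' (D : Finset (V × V)) (S : Finset V) :
    (cutSize D Sᶜ S : ℝ) = (D.card - Qf D (chi S) - Lf D (chi S)) / 4 := by
  unfold cutSize Qf Lf
  rw [Finset.card_filter, Nat.cast_sum, Finset.card_eq_sum_ones, Nat.cast_sum,
    ← Finset.sum_sub_distrib, ← Finset.sum_sub_distrib, Finset.sum_div]
  apply Finset.sum_congr rfl
  intro e _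
  unfold chi
  by_cases h1 : e.1 ∈ S <;> by_cases h2 : e.2 ∈ S <;> simp [h1, h2] <;> norm_num

theorem min_cut_formula (D : Finset (V × V)) (S : Finset V) :
    ((min (cutSize D S Sᶜ) (cutSize D Sᶜ S) : ℕ) : ℝ) =
      (D.card - (Qf D (chi S) + |Lf D (chi S)|)) / 4 := by
  rw [Nat.cast_min, cut_formula, cut_formula']
  rcases le_total 0 (Lf D (chi S)) with h | h
  · rw [abs_of_nonneg h, min_eq_right (by linarith)]; ring
  · rw [abs_of_nonpos h, min_eq_left (by linarith)]; ring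

/-- A `±1` vector with small `Q + |L|` gives a good bipartition. -/
theorem judicious_ge_of_vector (D : Finset (V × V)) (x : V → ℝ) (hx : ∀ v, x v = 1 ∨ x v = -1)
    (T : ℝ) (hT : Qf D x + |Lf D x| ≤ T) : ((D.card : ℝ) - T) / 4 ≤ (judicious D : ℝ) := by
  set S : Finset V := Finset.univ.filter (fun v => x v = 1) with hS
  have hxS : x = chi S := by
    funext v
    unfold chi
    by_cases hv : x v = 1
    · simp [hS, hv]
    · simp [hS, hv]
      rcases hx v with h | h
      · exact absurd h hv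
      · exact h
  have h1 : min (cutSize D S Sᶜ) (cutSize D Sᶜ S) ≤ judicious D := by
    unfold judicious
    exact Finset.le_sup (f := fun S => min (cutSize D S Sᶜ) (cutSize D Sᶜ S)) (Finset.mem_univ S)
  have h2 : ((min (cutSize D S Sᶜ) (cutSize D Sᶜ S) : ℕ) : ℝ) ≤ (judicious D : ℝ) := by
    exact_mod_cast h1
  rw [min_cut_formula, ← hxS] at h2
  linarith

end Pool.Agent.Helper953
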