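import Pool.Agent.Helper953_LLS.Main

namespace Pool.Agent.Helper953

open Finset

variable {V : Type*} [Fintype V] [DecidableEq V]

theorem sum_dg (D : Finset (V × V)) : ∑ v, (dg D v : ℝ) ≤ 2 * D.card := by
  unfold dg
  have h1 : ∀ v, ((D.filter (fun e => e.1 = v ∨ e.2 = v)).card : ℝ) ≤
      ∑ e ∈ D, ((if e.1 = v then (1 : ℝ) else 0) + (if e.2 = v then 1 else 0)) := by
    intro v
    rw [Finset.card_filter]
    push_cast
    apply Finset.sum_le_sum
    intro e _
    by_cases h1 : e.1 = v <;> by_cases h2 : e.2 = v <;> simp [h1, h2]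
  refine (Finset.sum_le_sum (fun v _ => h1 v)).trans ?_
  rw [Finset.sum_comm]
  have h2 : ∀ e ∈ D, ∑ v, ((if e.1 = v then (1 : ℝ) else 0) + (if e.2 = v then 1 else 0)) = 2 := by
    intro e _
    rw [Finset.sum_add_distrib, Finset.sum_ite_eq, Finset.sum_ite_eq]
    norm_num
  rw [Finset.sum_congr rfl h2, Finset.sum_const, nsmul_eq_mul]
  linarith

theorem card_high (D : Finset (V × V)) (M : ℝ) (hM : 1 < M) :
    ((Finset.univ.filter (fun v => ¬ ((dg D v : ℝ) + 1 ≤ M))).card : ℝ) ≤ 2 * D.card / (M - 1) := by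
  rw [le_div_iff₀ (by linarith)]
  calc ((Finset.univ.filter (fun v => ¬ ((dg D v : ℝ) + 1 ≤ M))).card : ℝ) * (M - 1)
      = ∑ v ∈ Finset.univ.filter (fun v => ¬ ((dg D v : ℝ) + 1 ≤ M)), (M - 1) := by
        rw [Finset.sum_const, nsmul_eq_mul]
    _ ≤ ∑ v ∈ Finset.univ.filter (fun v => ¬ ((dg D v : ℝ) + 1 ≤ M)), (dg D v : ℝ) := by
        apply Finset.sum_le_sum
        intro v hv
        rw [Finset.mem_filter] at hv
        have := hv.2
        push Not at this
        linarith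
    _ ≤ ∑ v, (dg D v : ℝ) := by
        apply Finset.sum_le_sum_of_subset_of_nonneg (Finset.filter_subset _ _)
        intro v _ _
        positivity
    _ ≤ 2 * D.card := sum_dg D

theorem card_mul_le (D : Finset (V × V)) (k : ℕ) (hD : MinOut D k) :
    k * Fintype.card V ≤ D.card := by
  have h1 : D.card = ∑ v : V, (D.filter (fun e => e.1 = v)).card :=
    Finset.card_eq_sum_card_fiberwise (fun e _ => Finset.mem_univ _)
  rw [h1]
  calc k * Fintype.card V = ∑ _v : V, k := by simp [mul_comm]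
    _ ≤ _ := Finset.sum_le_sum (fun v _ => hD.2 v)

/-- Main quantitative bound. -/
theorem main_bound (D : Finset (V × V)) (k : ℕ) (hk : 2 ≤ k) (hD : MinOut D k)
    (hm : 1 ≤ D.card) (M : ℝ) (hM : 4 * (k : ℝ) ≤ M) (ζ : ℝ) (hζ : ζ * (2 * k - 1) = 1) (r : ℝ)
    (hr : 0 < r) (hr2 : M ^ 4 * Fintype.card V ≤ r ^ 2) :
    ∃ x : V → ℝ, (∀ v, x v = 1 ∨ x v = -1) ∧
      Qf D x + |Lf D x| ≤ ζ * D.card + 2 * (2 * D.card / (M - 1) + 1) + r := by
  classical
  have hloop := hD.1
  have hk2 : (2 : ℝ) ≤ k := by exact_mod_cast hk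
  have hζpos : 0 < ζ := by
    by_contra h
    push Not at h
    nlinarith
  have hVne : (Finset.univ : Finset V).Nonempty := by
    obtain ⟨e, _⟩ := Finset.card_pos.mp hm
    exact ⟨e.1, Finset.mem_univ _⟩
  obtain ⟨h, _, hmax⟩ := Finset.exists_max_image Finset.univ (fun v => |sv D v|) hVne
  set H : Finset V := Finset.univ.filter (fun v => ¬ ((dg D v : ℝ) + 1 ≤ M)) with hH
  set A : Finset V := insert h H with hA
  set B : Finset V := Aᶜ with hB
  have hAcard : (A.card : ℝ) ≤ 2 * D.card / (M - 1) + 1 := by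
    have h1 := card_high D M (by linarith)
    have h2 : A.card ≤ H.card + 1 := Finset.card_insert_le _ _
    have h3 : (A.card : ℝ) ≤ H.card + 1 := by exact_mod_cast h2
    linarith
  have hBM : ∀ u ∈ B, (dg D u : ℝ) + 1 ≤ M := by
    intro u hu
    by_contra hcon
    rw [hB, Finset.mem_compl] at hu
    exact hu (Finset.mem_insert_of_mem (by rw [hH, Finset.mem_filter]; exact ⟨Finset.mem_univ _, hcon⟩))
  have hhA : h ∈ A := Finset.mem_insert_self _ _
  have hhB : h ∉ B := by rw [hB, Finset.mem_compl]; exact fun h' => h' hhA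
  have hBcard : M ^ 4 * (B.card : ℝ) ≤ r ^ 2 := by
    have h1 : (B.card : ℝ) ≤ Fintype.card V := by exact_mod_cast Finset.card_le_univ B
    have h2 : (0 : ℝ) ≤ M ^ 4 := by positivity
    calc M ^ 4 * (B.card : ℝ) ≤ M ^ 4 * Fintype.card V := mul_le_mul_of_nonneg_left h1 h2
      _ ≤ r ^ 2 := hr2
  obtain ⟨v₁, hv0, hv1, hdA, hdA'⟩ := dec_pairing D hloop 1 zero_le_one A.card A rfl
    (fun _ _ _ _ _ => le_rfl) h hhA (fun u _ => hmax u (Finset.mem_univ u))
  by_cases hcase : v₁ ≤ ζ * D.card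
  · -- Case 1
    obtain ⟨y₁, hy1, hy2, hy3, hy4⟩ := hdA 0 0 (by simp)
    have hQ0 : Qf D (0 : V → ℝ) = 0 := by simp [Qf]
    simp only [Psi, hQ0, Lf_zero, zero_mul, add_zero, sub_zero, zero_add, one_mul] at hy3 hy4
    have hproc : Proc D (M ^ 4) B 0 0 := by
      have h1 := proc_biUnion (D := D) (C := M ^ 4) B (fun u => ({u} : Finset V)) 0 (fun _ => 0)
        (by
          intro i _ j _ hij
          simpa using hij)
        (by
          intro u hu
          have := proc_star D hloop M u ∅ (by simp) (by simp) (by simp) 0 (by simp) (by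
            intro w hw
            have : w = u := by simpa using hw
            rw [this]; exact hBM u hu)
          simpa using this)
      simpa using h1
    obtain ⟨x, hx1, hx2⟩ := finish D (M ^ 4) B 0 0 hproc y₁ (by
      intro u hu
      rw [hy2 u (by rw [hB, Finset.mem_compl] at hu; exact hu)]) (by
      intro u hu
      apply hy1
      rw [hB, Finset.mem_compl, not_not] at hu
      exact hu) r hr hBcard
    refine ⟨x, hx1, ?_⟩
    have : (0 : ℝ) ≤ A.card := Nat.cast_nonneg _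
    linarith
  · -- Case 2
    push Not at hcase
    obtain ⟨τ, hτ, hτs⟩ : ∃ τ : ℝ, (τ = 1 ∨ τ = -1) ∧ τ * sv D h = |sv D h| := by
      rcases le_total 0 (sv D h) with h1 | h1
      · exact ⟨1, Or.inl rfl, by rw [abs_of_nonneg h1, one_mul]⟩
      · exact ⟨-1, Or.inr rfl, by rw [abs_of_nonpos h1]; ring⟩
    set U := smallSet D B k with hU
    have hUB : U ⊆ B := Finset.filter_subset _ _
    have hhU : h ∉ U := fun h' => hhB (hUB h')
    set y₀ : V → ℝ := fun v => if v = h then τ else if v ∈ U then -ζ else 0 with hy₀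
    have hy₀h : y₀ h = τ := by simp [hy₀]
    have hy₀U : ∀ u ∈ U, y₀ u = -ζ := by
      intro u hu
      have : u ≠ h := fun h' => hhU (h' ▸ hu)
      simp [hy₀, this, hu]
    have hy₀0 : ∀ u, u ≠ h → u ∉ U → y₀ u = 0 := by
      intro u h1 h2
      simp [hy₀, h1, h2]
    have hL0 : |sv D h| - ζ * D.card ≤ Lf D y₀ := by
      have e1 : y₀ = τ • (Pi.single h (1:ℝ)) + (fun v => if v ∈ U then -ζ else 0) := by
        funext v
        simp only [hy₀, Pi.add_apply, Pi.smul_apply, Pi.single_apply, smul_eq_mul]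
        by_cases hv : v = h
        · rw [hv]; simp [hhU]
        · simp [hv]
      rw [e1, Lf_add, Lf_smul]
      have e2 : τ * Lf D (Pi.single h 1) = |sv D h| := hτs
      rw [e2]
      have e3 : -(ζ * D.card) ≤ Lf D (fun v => if v ∈ U then -ζ else 0) := by
        unfold Lf
        have : -(ζ * D.card) = ∑ e ∈ D, (-ζ) := by
          rw [Finset.sum_const, nsmul_eq_mul]; ring
        rw [this]
        apply Finset.sum_le_sum
        intro e _
        by_cases h1 : e.1 ∈ U <;> by_cases h2 : e.2 ∈ U <;> simp only [h1, h2, if_true, if_false] <;>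
          linarith
      linarith
    obtain ⟨y₁, hy1, hy2, hy3, hy4⟩ := hdA' 1 y₀ (by
      intro u hu
      have huh : u ≠ h := Finset.ne_of_mem_erase hu
      have huA : u ∈ A := Finset.mem_of_mem_erase hu
      apply hy₀0 u huh
      intro huU
      have := hUB huU
      rw [hB, Finset.mem_compl] at this
      exact this huA)
    simp only [Psi, zero_mul, add_zero, one_mul] at hy3
    have hLy1 : 0 ≤ Lf D y₁ := by
      have := (abs_le.mp hy4).1
      linarith
    have hoff : ∀ u ∈ B, y₁ u = y₀ u := by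
      intro u hu
      apply hy2
      intro h'
      rw [hB, Finset.mem_compl] at hu
      exact hu (Finset.mem_of_mem_erase h')
    have hproc := proc_all D hloop k hk M hM B hBM ζ hζ y₀ hy₀U (by
      intro u hu hu'
      exact hy₀0 u (fun h' => hhB (h' ▸ hu)) hu')
    obtain ⟨x, hx1, hx2⟩ := finish D (M ^ 4) B y₀ _ hproc y₁ hoff (by
      intro u hu
      rw [hB, Finset.mem_compl, not_not] at hu
      by_cases huh : u = h
      · rw [huh, hy2 h (Finset.notMem_erase h A), hy₀h]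
        exact hτ
      · exact hy1 u (Finset.mem_erase.mpr ⟨huh, hu⟩)) r hr hBcard
    refine ⟨x, hx1, ?_⟩
    have hacc := accounting D k hk hD h B hhB ζ hζ τ hτ y₀ hy₀h hy₀U (by
      intro u h1 h2
      exact hy₀0 u h1 h2)
    rw [abs_of_nonneg hLy1] at hx2
    have hcA : ((A.erase h).card : ℝ) ≤ A.card := by
      exact_mod_cast Finset.card_le_card (Finset.erase_subset _ _)
    have hBc : Bᶜ = A := by rw [hB, compl_compl]
    rw [hBc] at hacc
    linarith

/-- Asymptotic form. -/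
theorem asymptotic_bound (k : ℕ) (hk : 2 ≤ k) (ε : ℝ) (hε : 0 < ε) :
    ∃ m₀ : ℕ, ∀ (V : Type) (_ : Fintype V) (_ : DecidableEq V) (D : Finset (V × V)),
      MinOut D k → 1 ≤ D.card → m₀ ≤ D.card →
      ((k : ℝ) - 1) / (2 * (2 * k - 1)) - ε ≤ (judicious D : ℝ) / D.card := by
  have hk2 : (2 : ℝ) ≤ k := by exact_mod_cast hk
  set ζ : ℝ := 1 / (2 * k - 1) with hζdef
  have hden : (0 : ℝ) < 2 * k - 1 := by linarith
  have hζ : ζ * (2 * k - 1) = 1 := by rw [hζdef]; field_simp
  set M : ℝ := max (4 * (k : ℝ)) (1 + 4 / ε) with hM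
  have hM1 : 4 * (k : ℝ) ≤ M := le_max_left _ _
  have hM2 : 1 + 4 / ε ≤ M := le_max_right _ _
  have hM0 : 0 < M := by linarith
  obtain ⟨m₀, hm₀⟩ := exists_nat_ge (max (2 / ε) ((M ^ 2 / ε) ^ 2))
  refine ⟨m₀, ?_⟩
  intro V _ _ D hD hm hmm
  have hmR : (1 : ℝ) ≤ D.card := by exact_mod_cast hm
  have hm0 : (0 : ℝ) < D.card := by linarith
  have hmm' : max (2 / ε) ((M ^ 2 / ε) ^ 2) ≤ (D.card : ℝ) := hm₀.trans (by exact_mod_cast hmm)
  have hb1 : 2 / ε ≤ (D.card : ℝ) := (le_max_left _ _).trans hmm'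
  have hb2 : (M ^ 2 / ε) ^ 2 ≤ (D.card : ℝ) := (le_max_right _ _).trans hmm'
  have hn : (Fintype.card V : ℝ) ≤ D.card := by
    have h1 := card_mul_le D k hD
    have h2 : Fintype.card V ≤ D.card := by nlinarith
    exact_mod_cast h2
  obtain ⟨x, hx1, hx2⟩ := main_bound D k hk hD hm M hM1 ζ hζ (M ^ 2 * √(D.card : ℝ))
    (by positivity) (by
      rw [mul_pow, Real.sq_sqrt hm0.le]
      have : (M ^ 2) ^ 2 = M ^ 4 := by ring
      rw [this]
      exact mul_le_mul_of_nonneg_left hn (by positivity))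
  have hj := judicious_ge_of_vector D x hx1 _ hx2
  -- bounding the error terms
  have hr : M ^ 2 * √(D.card : ℝ) ≤ ε * D.card := by
    have h1 : M ^ 2 / ε ≤ √(D.card : ℝ) := Real.le_sqrt_of_sq_le hb2
    rw [div_le_iff₀ hε] at h1
    have h2 : √(D.card : ℝ) * √(D.card : ℝ) = D.card := Real.mul_self_sqrt hm0.le
    have h3 : 0 ≤ √(D.card : ℝ) := Real.sqrt_nonneg _
    nlinarith
  have hA : 2 * (2 * (D.card : ℝ) / (M - 1) + 1) ≤ 2 * ε * D.card := by
    have h1 : (0 : ℝ) < M - 1 := by linarith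
    have h2 : 2 * (D.card : ℝ) / (M - 1) ≤ ε / 2 * D.card := by
      rw [div_le_iff₀ h1]
      have h3 : 4 ≤ ε * (M - 1) := by
        have h4 : 4 / ε ≤ M - 1 := by linarith
        rw [div_le_iff₀ hε] at h4
        linarith
      nlinarith
    have h5 : 2 ≤ ε * D.card := by
      rw [div_le_iff₀ hε] at hb1
      linarith
    nlinarith
  rw [le_div_iff₀ hm0]
  have hfin : (((k : ℝ) - 1) / (2 * (2 * k - 1)) - ε) * D.card ≤
      ((D.card : ℝ) - (ζ * D.card + 2 * (2 * D.card / (M - 1) + 1) + M ^ 2 * √(D.card : ℝ))) / 4 := by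
    have h6 : ((k : ℝ) - 1) / (2 * (2 * k - 1)) = (1 - ζ) / 4 := by
      rw [div_eq_iff (by positivity)]
      linear_combination (1 / 2) * hζ
    rw [h6]
    nlinarith
  exact hfin.trans hj

end Pool.Agent.Helper953
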