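import Pool.Agent.Helper953_LLS.Proc

namespace Pool.Agent.Helper953

open Finset

/-- There is a permutation with two prescribed values. -/
theorem exists_perm_two {N : ℕ} (i j i' j' : Fin N) (hij : i ≠ j) (hij' : i' ≠ j') :
    ∃ ρ : Equiv.Perm (Fin N), ρ i = i' ∧ ρ j = j' := by
  set ρ₁ : Equiv.Perm (Fin N) := Equiv.swap i i' with hρ₁
  have h1 : ρ₁ i = i' := Equiv.swap_apply_left i i'
  have h2 : ρ₁ j ≠ i' := by
    intro h
    rw [← h1] at h
    exact hij (ρ₁.injective h).symm
  refine ⟨Equiv.swap (ρ₁ j) j' * ρ₁, ?_, ?_⟩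
  · rw [Equiv.Perm.mul_apply, h1]
    exact Equiv.swap_apply_of_ne_of_ne (Ne.symm h2) hij'
  · rw [Equiv.Perm.mul_apply]
    exact Equiv.swap_apply_left _ _

theorem perm_sum_one {N : ℕ} (hN : 0 < N) (σ : Fin N → ℝ) (i : Fin N) :
    (N : ℝ) * ∑ π : Equiv.Perm (Fin N), σ (π i) = (Fintype.card (Equiv.Perm (Fin N)) : ℝ) * ∑ j, σ j := by
  have hind : ∀ j : Fin N, ∑ π : Equiv.Perm (Fin N), σ (π j) = ∑ π : Equiv.Perm (Fin N), σ (π i) := by
    intro j
    have := Equiv.sum_comp (Equiv.mulRight (Equiv.swap i j)) (fun π : Equiv.Perm (Fin N) => σ (π i))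
    rw [← this]
    apply Finset.sum_congr rfl
    intro π _
    simp [Equiv.mulRight]
  have h1 : ∑ j : Fin N, ∑ π : Equiv.Perm (Fin N), σ (π j) = N * ∑ π : Equiv.Perm (Fin N), σ (π i) := by
    rw [Finset.sum_congr rfl (fun j _ => hind j)]
    simp
  rw [← h1, Finset.sum_comm]
  have h2 : ∀ π : Equiv.Perm (Fin N), ∑ j, σ (π j) = ∑ j, σ j := fun π => Equiv.sum_comp π σ
  rw [Finset.sum_congr rfl (fun π _ => h2 π)]
  simp

theorem perm_sum_two {N : ℕ} (σ : Fin N → ℝ) (hσ : ∀ i, σ i * σ i = 1)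
    (i j : Fin N) (hij : i ≠ j) :
    ((N : ℝ) * (N - 1)) * ∑ π : Equiv.Perm (Fin N), σ (π i) * σ (π j) =
      (Fintype.card (Equiv.Perm (Fin N)) : ℝ) * ((∑ j, σ j) ^ 2 - N) := by
  set S := ∑ π : Equiv.Perm (Fin N), σ (π i) * σ (π j) with hS
  have hind : ∀ i' j' : Fin N, i' ≠ j' →
      ∑ π : Equiv.Perm (Fin N), σ (π i') * σ (π j') = S := by
    intro i' j' hij'
    obtain ⟨ρ, h1, h2⟩ := exists_perm_two i j i' j' hij hij'
    have := Equiv.sum_comp (Equiv.mulRight ρ) (fun π : Equiv.Perm (Fin N) => σ (π i) * σ (π j))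
    rw [hS, ← this]
    apply Finset.sum_congr rfl
    intro π _
    simp [Equiv.mulRight, h1, h2]
  have hdiag : ∀ i' : Fin N, ∑ π : Equiv.Perm (Fin N), σ (π i') * σ (π i') =
      (Fintype.card (Equiv.Perm (Fin N)) : ℝ) := by
    intro i'
    rw [Finset.sum_congr rfl (fun π _ => hσ (π i'))]
    simp
  have h1 : ∑ i' : Fin N, ∑ j' : Fin N, ∑ π : Equiv.Perm (Fin N), σ (π i') * σ (π j') =
      (N : ℝ) * (N - 1) * S + N * (Fintype.card (Equiv.Perm (Fin N)) : ℝ) := by
    have : ∀ i' : Fin N, ∑ j' : Fin N, ∑ π : Equiv.Perm (Fin N), σ (π i') * σ (π j') =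
        ((N : ℝ) - 1) * S + (Fintype.card (Equiv.Perm (Fin N)) : ℝ) := by
      intro i'
      rw [← Finset.add_sum_erase Finset.univ _ (Finset.mem_univ i'), hdiag i']
      rw [Finset.sum_congr rfl (fun j' hj' => hind i' j' (Finset.ne_of_mem_erase hj').symm)]
      rw [Finset.sum_const, Finset.card_erase_of_mem (Finset.mem_univ _), Finset.card_univ,
        Fintype.card_fin, nsmul_eq_mul, Nat.cast_pred (Fin.pos i')]
      ring
    rw [Finset.sum_congr rfl (fun i' _ => this i')]
    rw [Finset.sum_const, Finset.card_univ, Fintype.card_fin, nsmul_eq_mul]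
    ring
  have h2 : ∑ i' : Fin N, ∑ j' : Fin N, ∑ π : Equiv.Perm (Fin N), σ (π i') * σ (π j') =
      (Fintype.card (Equiv.Perm (Fin N)) : ℝ) * (∑ j, σ j) ^ 2 := by
    have e1 : ∀ i' : Fin N, ∑ j' : Fin N, ∑ π : Equiv.Perm (Fin N), σ (π i') * σ (π j') =
        ∑ π : Equiv.Perm (Fin N), σ (π i') * ∑ j' : Fin N, σ (π j') := by
      intro i'
      rw [Finset.sum_comm]
      apply Finset.sum_congr rfl
      intro π _
      rw [Finset.mul_sum]
    rw [Finset.sum_congr rfl (fun i' _ => e1 i'), Finset.sum_comm]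
    have e2 : ∀ π : Equiv.Perm (Fin N), ∑ i' : Fin N, σ (π i') * ∑ j' : Fin N, σ (π j') =
        (∑ j, σ j) ^ 2 := by
      intro π
      rw [← Finset.sum_mul, Equiv.sum_comp π σ]; ring
    rw [Finset.sum_congr rfl (fun π _ => e2 π)]
    simp
  linarith

variable {V : Type*} [Fintype V] [DecidableEq V]

omit [Fintype V] in
/-- Small components are decided by a random balanced-minus-one assignment. -/
theorem proc_small [Fintype V] (D : Finset (V × V)) (hD : ∀ e ∈ D, e.1 ≠ e.2) (k : ℕ)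
    (hk : 2 ≤ k) (M : ℝ) (K : Finset V) (hK : K.card ≤ 2 * k - 1) (hM2 : 4 * (k : ℝ) ≤ M)
    (hM : ∀ u ∈ K, (dg D u : ℝ) + 1 ≤ M)
    (a : V → ℝ) (ζ : ℝ) (hζ : ζ * (2 * k - 1) = 1) (ha : ∀ u ∈ K, a u = -ζ) :
    Proc D (M ^ 4) K a (-(ζ + ζ ^ 2) * ((D.filter (fun e => e.1 ∈ K ∧ e.2 ∈ K)).card : ℝ)) := by
  rcases K.eq_empty_or_nonempty with hKe | hKne
  · subst hKe
    simpa using proc_empty D (M ^ 4) a
  set N : ℕ := 2 * k - 1 with hN
  have hNr : (N : ℝ) = 2 * k - 1 := by
    rw [hN, Nat.cast_sub (by omega)]; push_cast; ring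
  have hk2 : (2 : ℝ) ≤ k := by exact_mod_cast hk
  have hNpos : (0 : ℝ) < N := by rw [hNr]; linarith
  have hζN : ζ * N = 1 := by rw [hNr]; exact hζ
  have hζpos : 0 < ζ := by
    by_contra h
    push Not at h
    nlinarith
  have hζ1 : ζ ≤ 1 := by nlinarith
  -- slots
  obtain ⟨slot, hslot⟩ : ∃ slot : V → Fin N, Set.InjOn slot K := by
    have : Fintype.card (K : Set V) ≤ Fintype.card (Fin N) := by
      simpa using hK
    obtain ⟨g⟩ := Function.Embedding.nonempty_of_card_le this
    have hN0 : 0 < N := by omega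
    classical
    refine ⟨fun v => if h : v ∈ K then g ⟨v, by simpa using h⟩ else ⟨0, hN0⟩, ?_⟩
    intro x hx y hy hxy
    have hx' : x ∈ K := by simpa using hx
    have hy' : y ∈ K := by simpa using hy
    simp only [hx', hy', dif_pos] at hxy
    have := g.injective hxy
    simpa using this
  set σ : Fin N → ℝ := fun i => if (i : ℕ) < k - 1 then 1 else -1 with hσdef
  have hσ : ∀ i, σ i * σ i = 1 := by
    intro i
    simp only [hσdef]
    split_ifs <;> norm_num
  have hσval : ∀ i, σ i = 1 ∨ σ i = -1 := by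
    intro i
    simp only [hσdef]
    split_ifs
    · left; rfl
    · right; rfl
  have hσsum : ∑ i, σ i = -1 := by
    have h1 : ∑ i : Fin N, σ i = ∑ i ∈ Finset.range N, (if i < k - 1 then (1 : ℝ) else -1) :=
      Fin.sum_univ_eq_sum_range (fun i => if i < k - 1 then (1 : ℝ) else -1) N
    rw [h1]
    have h2 : ∀ i ∈ Finset.range N, (if i < k - 1 then (1 : ℝ) else -1) =
        2 * (if i < k - 1 then (1 : ℝ) else 0) - 1 := by
      intro i _
      split_ifs <;> norm_num
    rw [Finset.sum_congr rfl h2, Finset.sum_sub_distrib, ← Finset.mul_sum, ← Finset.sum_filter]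
    have h3 : (Finset.range N).filter (fun i => i < k - 1) = Finset.range (k - 1) := by
      ext i
      simp only [Finset.mem_filter, Finset.mem_range]
      omega
    rw [h3]
    simp only [Finset.sum_const, Finset.card_range, nsmul_eq_mul, mul_one]
    rw [Nat.cast_sub (by omega), hNr]; push_cast; ring
  set c : ℝ := (Fintype.card (Equiv.Perm (Fin N)) : ℝ) with hc
  have hone : ∀ i : Fin N, ∑ π : Equiv.Perm (Fin N), σ (π i) = - c * ζ := by
    intro i
    have h := perm_sum_one (by omega) σ i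
    rw [hσsum] at h
    have : (N : ℝ) * (∑ π : Equiv.Perm (Fin N), σ (π i)) = N * (-c * ζ) := by
      rw [h]; linear_combination (-c) * hζN.symm
    exact mul_left_cancel₀ hNpos.ne' this
  have htwo : ∀ i j : Fin N, i ≠ j → ∑ π : Equiv.Perm (Fin N), σ (π i) * σ (π j) = - c * ζ := by
    intro i j hij
    have h := perm_sum_two σ hσ i j hij
    rw [hσsum] at h
    have hN1 : (0 : ℝ) < N * (N - 1) := by
      apply mul_pos hNpos
      rw [hNr]; linarith
    have : ((N : ℝ) * (N - 1)) * (∑ π : Equiv.Perm (Fin N), σ (π i) * σ (π j)) =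
        ((N : ℝ) * (N - 1)) * (-c * ζ) := by
      rw [h]; linear_combination (c * (1 - N)) * hζN.symm
    exact mul_left_cancel₀ hN1.ne' this
  -- the family
  set δ : Equiv.Perm (Fin N) → V → ℝ := fun π v => if v ∈ K then σ (π (slot v)) + ζ else 0 with hδ
  apply proc_family (Finset.univ : Finset (Equiv.Perm (Fin N))) Finset.univ_nonempty D _ K a δ
  · intro π _ u hu
    simp [hδ, hu]
  · intro π _ u hu
    simp only [hδ, hu, if_true, ha u hu]
    rcases hσval (π (slot u)) with h | h <;> rw [h]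
    · left; ring
    · right; ring
  · funext v
    rw [Finset.sum_apply]
    by_cases hv : v ∈ K
    · simp only [hδ, hv, if_true, Pi.zero_apply]
      rw [Finset.sum_add_distrib, hone (slot v)]
      simp [hc]
    · simp [hδ, hv]
  · have hswap : ∑ π : Equiv.Perm (Fin N), Qf D (δ π) =
        ∑ e ∈ D, ∑ π : Equiv.Perm (Fin N), δ π e.1 * δ π e.2 := by
      unfold Qf
      rw [Finset.sum_comm]
    rw [hswap]
    have hterm : ∀ e ∈ D, ∑ π : Equiv.Perm (Fin N), δ π e.1 * δ π e.2 =
        if e.1 ∈ K ∧ e.2 ∈ K then c * (-(ζ + ζ ^ 2)) else 0 := by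
      intro e he
      have hne := hD e he
      by_cases h1 : e.1 ∈ K
      · by_cases h2 : e.2 ∈ K
        · have hs : slot e.1 ≠ slot e.2 := fun h => hne (hslot h1 h2 h)
          simp only [hδ, h1, h2, if_true, and_self]
          have : ∀ π : Equiv.Perm (Fin N), (σ (π (slot e.1)) + ζ) * (σ (π (slot e.2)) + ζ) =
              σ (π (slot e.1)) * σ (π (slot e.2)) + ζ * σ (π (slot e.1)) +
              ζ * σ (π (slot e.2)) + ζ ^ 2 := by
            intro π; ring
          rw [Finset.sum_congr rfl (fun π _ => this π), Finset.sum_add_distrib,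
            Finset.sum_add_distrib, Finset.sum_add_distrib, htwo _ _ hs, ← Finset.mul_sum,
            ← Finset.mul_sum, hone, hone, Finset.sum_const, Finset.card_univ, nsmul_eq_mul, ← hc]
          ring
        · simp [hδ, h2]
      · simp [hδ, h1]
    rw [Finset.sum_congr rfl hterm, ← Finset.sum_filter, Finset.sum_const, nsmul_eq_mul,
      Finset.card_univ, ← hc]
    apply le_of_eq; ring
  · intro π _
    apply noise_le D K hKne _ 2 M (by linarith)
    · intro u hu
      simp [hδ, hu]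
    · intro u hu
      simp only [hδ, hu, if_true]
      rcases hσval (π (slot u)) with h | h <;> rw [h, abs_le] <;> constructor <;> linarith
    · intro u hu
      linarith [abs_sv_le_dg D u, hM u hu]
    · have : (K.card : ℝ) ≤ 2 * k - 1 := by
        rw [← hNr]; exact_mod_cast hK
      linarith

end Pool.Agent.Helper953
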