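import Pool.Agent.Helper953_LLS.Large
import Pool.Agent.Helper953_LLS.Small

namespace Pool.Agent.Helper953

open Finset

variable {V : Type*} [Fintype V] [DecidableEq V]

/-- The graph induced on `B`. -/
def graphOn (D : Finset (V × V)) (B : Finset V) : SimpleGraph V where
  Adj x y := x ≠ y ∧ x ∈ B ∧ y ∈ B ∧ Ad D x y
  symm := by
    constructor
    intro x y h
    exact ⟨h.1.symm, h.2.2.1, h.2.1, h.2.2.2.symm⟩
  loopless := ⟨fun x h => h.1 rfl⟩

/-- The component of a vertex. -/
noncomputable def compOf (D : Finset (V × V)) (B : Finset V) (v : V) : Finset V := by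
  classical
  exact Finset.univ.filter (fun u => (graphOn D B).Reachable v u)

theorem mem_compOf (D : Finset (V × V)) (B : Finset V) (v u : V) :
    u ∈ compOf D B v ↔ (graphOn D B).Reachable v u := by
  unfold compOf
  simp

theorem compOf_subset (D : Finset (V × V)) (B : Finset V) (v : V) (hv : v ∈ B) :
    compOf D B v ⊆ B := by
  intro u hu
  rw [mem_compOf] at hu
  obtain ⟨p⟩ := hu.symm
  cases p with
  | nil => exact hv
  | cons h _ => exact h.2.1

theorem self_mem_compOf (D : Finset (V × V)) (B : Finset V) (v : V) : v ∈ compOf D B v := by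
  rw [mem_compOf]

theorem compOf_eq (D : Finset (V × V)) (B : Finset V) (v u : V) (h : u ∈ compOf D B v) :
    compOf D B u = compOf D B v := by
  rw [mem_compOf] at h
  ext w
  rw [mem_compOf, mem_compOf]
  exact ⟨fun h' => h.trans h', fun h' => h.symm.trans h'⟩

omit [Fintype V] [DecidableEq V] in
theorem exists_parent (D : Finset (V × V)) (B : Finset V) (v x : V)
    (hr : (graphOn D B).Reachable v x) (hne : x ≠ v) :
    ∃ y, (graphOn D B).Reachable v y ∧ Ad D x y ∧
      (graphOn D B).dist y v + 1 = (graphOn D B).dist x v := by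
  obtain ⟨p, hp⟩ := hr.symm.exists_walk_length_eq_dist
  cases p with
  | nil => exact absurd rfl hne
  | @cons _ y _ h q =>
    refine ⟨y, ⟨q.reverse⟩, h.2.2.2, ?_⟩
    have h1 : (graphOn D B).dist y v ≤ q.length := SimpleGraph.dist_le q
    rw [SimpleGraph.Walk.length_cons] at hp
    obtain ⟨q', hq'⟩ := (SimpleGraph.Walk.reachable q).exists_walk_length_eq_dist
    have h2 : (graphOn D B).dist x v ≤ (SimpleGraph.Walk.cons h q').length := SimpleGraph.dist_le _
    rw [SimpleGraph.Walk.length_cons] at h2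
    omega

theorem proc_large_comp (D : Finset (V × V)) (hD : ∀ e ∈ D, e.1 ≠ e.2) (M : ℝ) (B : Finset V)
    (hM : ∀ u ∈ B, (dg D u : ℝ) + 1 ≤ M) (v : V) (hv : v ∈ B) (a : V → ℝ)
    (ha : ∀ u ∈ compOf D B v, a u = 0) :
    Proc D (M ^ 4) (compOf D B v) a (-((((compOf D B v).card : ℝ) - 1) / 2)) := by
  apply proc_large D hD M v (fun u => (graphOn D B).dist u v) (by simp) a _ _ rfl
    (self_mem_compOf D B v) _ ha (fun u hu => hM u (compOf_subset D B v hv hu))
  intro x hx hne
  rw [mem_compOf] at hx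
  obtain ⟨y, h1, h2, h3⟩ := exists_parent D B v x hx hne
  exact ⟨y, (mem_compOf D B v y).mpr h1, h2, h3⟩

/-- Vertices of `B` in small components. -/
noncomputable def smallSet (D : Finset (V × V)) (B : Finset V) (k : ℕ) : Finset V :=
  B.filter (fun v => (compOf D B v).card ≤ 2 * k - 1)

/-- Processing all of `B`. -/
theorem proc_all (D : Finset (V × V)) (hD : ∀ e ∈ D, e.1 ≠ e.2) (k : ℕ) (hk : 2 ≤ k) (M : ℝ)
    (hM2 : 4 * (k : ℝ) ≤ M) (B : Finset V) (hM : ∀ u ∈ B, (dg D u : ℝ) + 1 ≤ M) (ζ : ℝ)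
    (hζ : ζ * (2 * k - 1) = 1) (a : V → ℝ) (ha : ∀ u ∈ smallSet D B k, a u = -ζ)
    (ha' : ∀ u ∈ B, u ∉ smallSet D B k → a u = 0) :
    Proc D (M ^ 4) B a
      (-(ζ + ζ ^ 2) * ((D.filter (fun e => e.1 ∈ smallSet D B k ∧ e.2 ∈ smallSet D B k)).card : ℝ) +
        (ζ * k - 1) * ((B \ smallSet D B k).card : ℝ)) := by
  classical
  have hk2 : (2 : ℝ) ≤ k := by exact_mod_cast hk
  have hζpos : 0 < ζ := by
    by_contra h
    push Not at h
    nlinarith
  set U := smallSet D B k with hU
  set 𝒦 : Finset (Finset V) := B.image (compOf D B) with h𝒦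
  have hbi : 𝒦.biUnion id = B := by
    ext u
    simp only [Finset.mem_biUnion, h𝒦, Finset.mem_image, id]
    constructor
    · rintro ⟨K, ⟨v, hv, rfl⟩, hu⟩
      exact compOf_subset D B v hv hu
    · intro hu
      exact ⟨_, ⟨u, hu, rfl⟩, self_mem_compOf D B u⟩
  set q : Finset V → ℝ := fun K => if K.card ≤ 2 * k - 1 then
    -(ζ + ζ ^ 2) * ((D.filter (fun e => e.1 ∈ K ∧ e.2 ∈ K)).card : ℝ)
    else -(((K.card : ℝ) - 1) / 2) with hq
  have hproc : Proc D (M ^ 4) (𝒦.biUnion id) a (∑ K ∈ 𝒦, q K) := by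
    apply proc_biUnion
    · intro K hK K' hK' hne
      rw [h𝒦, Finset.mem_image] at hK hK'
      obtain ⟨v, hv, rfl⟩ := hK
      obtain ⟨v', hv', rfl⟩ := hK'
      rw [Finset.disjoint_left]
      intro u hu hu'
      apply hne
      rw [← compOf_eq D B v u hu, ← compOf_eq D B v' u hu']
    · intro K hK
      rw [h𝒦, Finset.mem_image] at hK
      obtain ⟨v, hv, rfl⟩ := hK
      have hsub := compOf_subset D B v hv
      simp only [hq, id]
      split_ifs with hc
      · apply proc_small D hD k hk M _ hc hM2 (fun u hu => hM u (hsub hu)) a ζ hζ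
        intro u hu
        apply ha
        rw [hU, smallSet, Finset.mem_filter, compOf_eq D B v u hu]
        exact ⟨hsub hu, hc⟩
      · apply proc_large_comp D hD M B hM v hv a
        intro u hu
        apply ha' u (hsub hu)
        rw [hU, smallSet, Finset.mem_filter, compOf_eq D B v u hu]
        exact fun h => hc h.2
  rw [hbi] at hproc
  apply hproc.mono
  -- the bound on the sum of the costs
  rw [← Finset.sum_filter_add_sum_filter_not 𝒦 (fun K => K.card ≤ 2 * k - 1)]
  apply add_le_add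
  · have h1 : ∑ K ∈ 𝒦.filter (fun K => K.card ≤ 2 * k - 1), q K =
        -(ζ + ζ ^ 2) * ∑ K ∈ 𝒦.filter (fun K => K.card ≤ 2 * k - 1),
          ((D.filter (fun e => e.1 ∈ K ∧ e.2 ∈ K)).card : ℝ) := by
      rw [Finset.mul_sum]
      apply Finset.sum_congr rfl
      intro K hK
      simp only [hq]
      rw [if_pos (Finset.mem_filter.mp hK).2]
    rw [h1]
    have h2 : ((D.filter (fun e => e.1 ∈ U ∧ e.2 ∈ U)).card : ℝ) ≤
        ∑ K ∈ 𝒦.filter (fun K => K.card ≤ 2 * k - 1),
          ((D.filter (fun e => e.1 ∈ K ∧ e.2 ∈ K)).card : ℝ) := by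
      have hsub : D.filter (fun e => e.1 ∈ U ∧ e.2 ∈ U) ⊆
          (𝒦.filter (fun K => K.card ≤ 2 * k - 1)).biUnion
            (fun K => D.filter (fun e => e.1 ∈ K ∧ e.2 ∈ K)) := by
        intro e he
        rw [Finset.mem_filter] at he
        obtain ⟨heD, he1, he2⟩ := he
        rw [hU, smallSet, Finset.mem_filter] at he1 he2
        rw [Finset.mem_biUnion]
        refine ⟨compOf D B e.1, ?_, ?_⟩
        · rw [Finset.mem_filter, h𝒦, Finset.mem_image]
          exact ⟨⟨e.1, he1.1, rfl⟩, he1.2⟩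
        · rw [Finset.mem_filter]
          refine ⟨heD, self_mem_compOf D B e.1, ?_⟩
          rw [mem_compOf]
          apply SimpleGraph.Adj.reachable
          exact ⟨hD e heD, he1.1, he2.1, Or.inl heD⟩
      have := (Finset.card_le_card hsub).trans Finset.card_biUnion_le
      exact_mod_cast this
    have h3 : 0 ≤ ζ + ζ ^ 2 := by positivity
    nlinarith
  · have h1 : ∑ K ∈ 𝒦.filter (fun K => ¬ K.card ≤ 2 * k - 1), q K ≤
        (ζ * k - 1) * ∑ K ∈ 𝒦.filter (fun K => ¬ K.card ≤ 2 * k - 1), (K.card : ℝ) := by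
      rw [Finset.mul_sum]
      apply Finset.sum_le_sum
      intro K hK
      have hc := (Finset.mem_filter.mp hK).2
      simp only [hq]
      rw [if_neg hc]
      have hc' : (2 * (k : ℝ) - 1) ≤ K.card := by
        have : 2 * k ≤ K.card := by omega
        have h' : (2 : ℝ) * k ≤ K.card := by exact_mod_cast this
        linarith
      have h4 : 1 ≤ ζ * (K.card : ℝ) := by
        calc 1 = ζ * (2 * k - 1) := hζ.symm
          _ ≤ ζ * K.card := mul_le_mul_of_nonneg_left hc' hζpos.le
      have h5 : ζ * k = (1 + ζ) / 2 := by linarith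
      rw [h5]
      nlinarith
    refine h1.trans ?_
    have h2 : ((B \ U).card : ℝ) ≤ ∑ K ∈ 𝒦.filter (fun K => ¬ K.card ≤ 2 * k - 1), (K.card : ℝ) := by
      have hsub : B \ U ⊆ (𝒦.filter (fun K => ¬ K.card ≤ 2 * k - 1)).biUnion id := by
        intro u hu
        rw [Finset.mem_sdiff, hU, smallSet, Finset.mem_filter] at hu
        rw [Finset.mem_biUnion]
        refine ⟨compOf D B u, ?_, self_mem_compOf D B u⟩
        rw [Finset.mem_filter, h𝒦, Finset.mem_image]
        exact ⟨⟨u, hu.1, rfl⟩, fun h => hu.2 ⟨hu.1, h⟩⟩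
      have := (Finset.card_le_card hsub).trans Finset.card_biUnion_le
      exact_mod_cast this
    have h3 : ζ * k - 1 ≤ 0 := by
      have h5 : ζ * k = (1 + ζ) / 2 := by linarith
      have : ζ ≤ 1 := by nlinarith
      linarith
    exact mul_le_mul_of_nonpos_left h2 h3

end Pool.Agent.Helper953
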