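import Pool.Agent.Helper953_LLS.Basic

namespace Pool.Agent.Helper953

open Finset

variable {V : Type*} [Fintype V] [DecidableEq V]

/-- `Dec D γ A v`: the undecided set `A` can be decided (set to `±1`) at cost `γ |A|` for every
functional `Q + ℓ L`, moving `L` by at most `v`. -/
def Dec (D : Finset (V × V)) (γ : ℝ) (A : Finset V) (v : ℝ) : Prop :=
  ∀ (ℓ : ℝ) (y : V → ℝ), (∀ u ∈ A, y u = 0) → ∃ y' : V → ℝ,
    (∀ u ∈ A, y' u = 1 ∨ y' u = -1) ∧ (∀ u, u ∉ A → y' u = y u) ∧
    Psi D 0 ℓ y' ≤ Psi D 0 ℓ y + γ * A.card ∧ |Lf D y' - Lf D y| ≤ v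

omit [Fintype V] [DecidableEq V] in
theorem Dec.mono {D : Finset (V × V)} {γ : ℝ} {A : Finset V} {v w : ℝ} (h : Dec D γ A v)
    (hvw : v ≤ w) : Dec D γ A w := by
  intro ℓ y hy
  obtain ⟨y', h1, h2, h3, h4⟩ := h ℓ y hy
  exact ⟨y', h1, h2, h3, h4.trans hvw⟩

omit [Fintype V] [DecidableEq V] in
theorem dec_empty (D : Finset (V × V)) (γ v : ℝ) (hv : 0 ≤ v) : Dec D γ ∅ v := by
  intro ℓ y _
  exact ⟨y, by simp, by simp, by simp, by simpa using hv⟩

omit [Fintype V] in
theorem dec_block (D : Finset (V × V)) (γ : ℝ) (A b : Finset V) (hb : b ⊆ A) (δ : V → ℝ)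
    (h1 : ∀ u ∈ b, δ u = 1 ∨ δ u = -1) (h0 : ∀ u, u ∉ b → δ u = 0) (w v : ℝ)
    (hQ : Qf D δ ≤ γ * b.card) (hL : |Lf D δ| ≤ w) (hd : Dec D γ (A \ b) v) :
    Dec D γ A (w + v) := by
  intro ℓ y hy
  have key : ∃ ε : ℝ, (ε = 1 ∨ ε = -1) ∧ Psi D 0 ℓ (y + ε • δ) ≤ Psi D 0 ℓ y + γ * b.card := by
    rcases exists_sign_step D 0 ℓ y δ with h | h
    · refine ⟨1, Or.inl rfl, ?_⟩
      rw [one_smul]; linarith
    · refine ⟨-1, Or.inr rfl, ?_⟩
      rw [neg_one_smul, ← sub_eq_add_neg]; linarith
  obtain ⟨ε, hε, hP⟩ := key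
  have hεabs : |ε| = 1 := by rcases hε with h | h <;> simp [h]
  obtain ⟨y', g1, g2, g3, g4⟩ := hd ℓ (y + ε • δ) (by
    intro u hu
    rw [Finset.mem_sdiff] at hu
    simp [hy u hu.1, h0 u hu.2])
  refine ⟨y', ?_, ?_, ?_, ?_⟩
  · intro u hu
    by_cases hub : u ∈ b
    · have : u ∉ A \ b := by simp [hub]
      rw [g2 u this]
      simp only [Pi.add_apply, Pi.smul_apply, smul_eq_mul, hy u hu, zero_add]
      rcases hε with h | h <;> rcases h1 u hub with h' | h' <;> simp [h, h']
    · exact g1 u (by simp [hu, hub])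
  · intro u hu
    have hub : u ∉ b := fun h => hu (hb h)
    have : u ∉ A \ b := by simp [hu]
    rw [g2 u this]
    simp [h0 u hub]
  · have hc : (A.card : ℝ) = b.card + (A \ b).card := by
      have := Finset.card_sdiff_add_card_eq_card hb
      have h' : ((A \ b).card : ℝ) + b.card = A.card := by exact_mod_cast this
      linarith
    rw [hc, mul_add]
    linarith
  · have e1 : Lf D y' - Lf D y = (Lf D y' - Lf D (y + ε • δ)) + ε * Lf D δ := by
      rw [Lf_add, Lf_smul]; ring
    rw [e1]
    calc |(Lf D y' - Lf D (y + ε • δ)) + ε * Lf D δ| ≤ |Lf D y' - Lf D (y + ε • δ)| + |ε * Lf D δ| :=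
          abs_add_le _ _
      _ ≤ v + w := by
          rw [abs_mul, hεabs, one_mul]
          exact add_le_add g4 hL
      _ = w + v := by ring

omit [Fintype V] in
theorem Qf_single (D : Finset (V × V)) (hD : ∀ e ∈ D, e.1 ≠ e.2) (p : V) :
    Qf D (Pi.single p 1) = 0 := by
  unfold Qf
  apply Finset.sum_eq_zero
  intro e he
  have := hD e he
  by_cases h1 : e.1 = p
  · have h2 : e.2 ≠ p := fun h => this (h1.trans h.symm)
    simp [Pi.single_apply, h2]
  · simp [Pi.single_apply, h1]

omit [Fintype V] in
theorem Qf_pair_le_zero (D : Finset (V × V)) (hD : ∀ e ∈ D, e.1 ≠ e.2) (p q : V) :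
    Qf D (Pi.single p 1 - Pi.single q 1) ≤ 0 := by
  unfold Qf
  apply Finset.sum_nonpos
  intro e he
  have h := hD e he
  by_cases h1 : e.1 = p
  · have h2 : e.2 ≠ p := fun h' => h (h1.trans h'.symm)
    by_cases h3 : e.1 = q
    · have h4 : e.2 ≠ q := fun h' => h (h3.trans h'.symm)
      simp [Pi.single_apply, h2, h4]
    · by_cases h4 : e.2 = q <;> simp [Pi.single_apply, h1, h2, h3, h4] <;> split_ifs <;> norm_num
  · by_cases h3 : e.1 = q
    · have h4 : e.2 ≠ q := fun h' => h (h3.trans h'.symm)
      by_cases h5 : e.2 = p <;> simp [Pi.single_apply, h1, h3, h4, h5] <;> split_ifs <;> norm_num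
    · simp [Pi.single_apply, h1, h3]

omit [Fintype V] in
theorem Qf_pair_le_two (D : Finset (V × V)) (hD : ∀ e ∈ D, e.1 ≠ e.2) (p q : V) :
    Qf D (Pi.single p 1 + Pi.single q 1) ≤ 2 ∨ p = q := by
  by_cases hpq : p = q
  · exact Or.inr hpq
  left
  have h1 : Qf D (Pi.single p 1 + Pi.single q 1) =
      ∑ e ∈ D.filter (fun e => e = (p, q) ∨ e = (q, p)), 1 := by
    unfold Qf
    rw [Finset.sum_filter]
    apply Finset.sum_congr rfl
    intro e he
    have h := hD e he
    obtain ⟨a, b⟩ := e
    simp only at h
    simp only [Pi.add_apply, Pi.single_apply, Prod.mk.injEq]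
    by_cases ha : a = p
    · have hb : b ≠ p := fun h' => h (ha.trans h'.symm)
      have haq : a ≠ q := fun h' => hpq (ha.symm.trans h')
      by_cases hbq : b = q <;> simp [ha, hb, hbq, hpq] <;> (intro h'; exact absurd h'.symm hpq)
    · by_cases haq : a = q
      · have hb : b ≠ q := fun h' => h (haq.trans h'.symm)
        by_cases hbp : b = p <;> simp [ha, hb, hbp, haq, hpq] <;> (intro h'; exact absurd h'.symm hpq)
      · simp [ha, haq]
  rw [h1, Finset.sum_const, nsmul_eq_mul, mul_one]
  have h2 : (D.filter (fun e => e = (p, q) ∨ e = (q, p))).card ≤ ({(p, q), (q, p)} : Finset (V × V)).card := by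
    apply Finset.card_le_card
    intro e he
    simp only [Finset.mem_filter] at he
    simp [he.2]
  have h3 : ({(p, q), (q, p)} : Finset (V × V)).card ≤ 2 := Finset.card_le_two
  exact_mod_cast h2.trans h3

omit [Fintype V] in
theorem Lf_single (D : Finset (V × V)) (p : V) : Lf D (Pi.single p 1) = sv D p := rfl

omit [Fintype V] in
/-- Sorted pairing. -/
theorem dec_pairing (D : Finset (V × V)) (hD : ∀ e ∈ D, e.1 ≠ e.2) (γ : ℝ) (hγ : 0 ≤ γ) :
    ∀ (n : ℕ) (A : Finset V), A.card = n →
      (∀ p ∈ A, ∀ q ∈ A, sv D p * sv D q < 0 → 1 ≤ γ) →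
      ∀ p ∈ A, (∀ u ∈ A, |sv D u| ≤ |sv D p|) →
      ∃ v, 0 ≤ v ∧ v ≤ |sv D p| ∧ Dec D γ A v ∧ Dec D γ (A.erase p) (|sv D p| - v) := by
  intro n
  induction n with
  | zero =>
    intro A hA _ p hp
    rw [Finset.card_eq_zero] at hA
    simp [hA] at hp
  | succ n ih =>
    intro A hA hneg p hp hmax
    have hcard : (A.erase p).card = n := by rw [Finset.card_erase_of_mem hp, hA]; rfl
    by_cases hne : (A.erase p).Nonempty
    · obtain ⟨q, hq, hqmax⟩ := Finset.exists_max_image (A.erase p) (fun u => |sv D u|) hne
      obtain ⟨v', hv0, hv1, hd1, hd2⟩ := ih (A.erase p) hcard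
        (fun a ha b hb => hneg a (Finset.mem_of_mem_erase ha) b (Finset.mem_of_mem_erase hb))
        q hq hqmax
      have hqA : q ∈ A := Finset.mem_of_mem_erase hq
      have hqp : q ≠ p := Finset.ne_of_mem_erase hq
      have hqle : |sv D q| ≤ |sv D p| := hmax q hqA
      refine ⟨|sv D p| - v', by linarith, by linarith, ?_, by simpa using hd1⟩
      have hset : A \ {p, q} = (A.erase p).erase q := by
        ext u
        simp only [Finset.mem_sdiff, Finset.mem_insert, Finset.mem_singleton, Finset.mem_erase]
        tauto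
      have hsub : ({p, q} : Finset V) ⊆ A := by
        intro u hu
        simp only [Finset.mem_insert, Finset.mem_singleton] at hu
        rcases hu with h | h <;> rw [h] <;> assumption
      have hcard2 : (({p, q} : Finset V).card : ℝ) = 2 := by
        rw [Finset.card_pair (Ne.symm hqp)]; norm_num
      have hfin : |sv D p| - v' = (|sv D p| - |sv D q|) + (|sv D q| - v') := by ring
      rw [hfin]
      by_cases hs : 0 ≤ sv D p * sv D q
      · refine dec_block D γ A {p, q} hsub (Pi.single p 1 - Pi.single q 1) ?_ ?_ _ _ ?_ ?_ ?_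
        · intro u hu
          simp only [Finset.mem_insert, Finset.mem_singleton] at hu
          rcases hu with h | h
          · left; simp [h, Pi.single_apply, Ne.symm hqp]
          · right; simp [h, Pi.single_apply, hqp]
        · intro u hu
          simp only [Finset.mem_insert, Finset.mem_singleton, not_or] at hu
          simp [Pi.single_apply, hu.1, hu.2]
        · rw [hcard2]
          have := Qf_pair_le_zero D hD p q
          nlinarith
        · have e1 : Lf D (Pi.single p 1 - Pi.single q 1) = sv D p - sv D q := by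
            rw [sub_eq_add_neg, Lf_add, Lf_neg]; rfl
          rw [e1]
          rcases le_total 0 (sv D p) with h | h
          · rcases le_total 0 (sv D q) with h' | h'
            · rw [abs_of_nonneg h, abs_of_nonneg h'] at hqle ⊢
              rw [abs_of_nonneg (by linarith)]
            · have : sv D q = 0 ∨ sv D p = 0 := by
                by_contra hcon
                push Not at hcon
                have h1 : 0 < sv D p := lt_of_le_of_ne h (Ne.symm hcon.2)
                have h2 : sv D q < 0 := lt_of_le_of_ne h' hcon.1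
                nlinarith
              rcases this with h0 | h0
              · simp [h0]
              · rw [h0, abs_zero] at hqle
                have : sv D q = 0 := abs_eq_zero.mp (le_antisymm hqle (abs_nonneg _))
                simp [this]
          · rcases le_total 0 (sv D q) with h' | h'
            · have : sv D q = 0 ∨ sv D p = 0 := by
                by_contra hcon
                push Not at hcon
                have h1 : sv D p < 0 := lt_of_le_of_ne h hcon.2
                have h2 : 0 < sv D q := lt_of_le_of_ne h' (Ne.symm hcon.1)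
                nlinarith
              rcases this with h0 | h0
              · simp [h0]
              · rw [h0, abs_zero] at hqle
                have : sv D q = 0 := abs_eq_zero.mp (le_antisymm hqle (abs_nonneg _))
                simp [this]
            · rw [abs_of_nonpos h, abs_of_nonpos h'] at hqle ⊢
              rw [abs_of_nonpos (by linarith)]
              linarith
        · rw [hset]; exact hd2
      · push Not at hs
        have hγ1 : 1 ≤ γ := hneg p hp q hqA hs
        refine dec_block D γ A {p, q} hsub (Pi.single p 1 + Pi.single q 1) ?_ ?_ _ _ ?_ ?_ ?_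
        · intro u hu
          simp only [Finset.mem_insert, Finset.mem_singleton] at hu
          rcases hu with h | h
          · left; simp [h, Pi.single_apply, Ne.symm hqp]
          · left; simp [h, Pi.single_apply, hqp]
        · intro u hu
          simp only [Finset.mem_insert, Finset.mem_singleton, not_or] at hu
          simp [Pi.single_apply, hu.1, hu.2]
        · rw [hcard2]
          rcases Qf_pair_le_two D hD p q with h | h
          · nlinarith
          · exact absurd h.symm hqp
        · have e1 : Lf D (Pi.single p 1 + Pi.single q 1) = sv D p + sv D q := by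
            rw [Lf_add]; rfl
          rw [e1]
          rcases le_total 0 (sv D p) with h | h
          · have h' : sv D q ≤ 0 := by
              by_contra hcon
              push Not at hcon
              nlinarith
            rw [abs_of_nonneg h, abs_of_nonpos h'] at hqle ⊢
            rw [abs_of_nonneg (by linarith)]
            linarith
          · have h' : 0 ≤ sv D q := by
              by_contra hcon
              push Not at hcon
              nlinarith
            rw [abs_of_nonpos h, abs_of_nonneg h'] at hqle ⊢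
            rw [abs_of_nonpos (by linarith)]
            linarith
        · rw [hset]; exact hd2
    · rw [Finset.not_nonempty_iff_eq_empty] at hne
      have hAp : A \ {p} = ∅ := by rw [← Finset.erase_eq]; exact hne
      refine ⟨|sv D p|, abs_nonneg _, le_refl _, ?_, ?_⟩
      · have h := dec_block D γ A {p} (by simpa using hp) (Pi.single p 1)
          (by intro u hu; left; simp at hu; simp [hu])
          (by intro u hu; simp at hu; simp [Pi.single_apply, hu]) (|sv D p|) 0
          (by rw [Qf_single D hD p]; positivity)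
          (by rw [Lf_single]) (by rw [hAp]; exact dec_empty D γ 0 le_rfl)
        simpa using h
      · rw [hne, sub_self]
        exact dec_empty D γ 0 le_rfl

/-- Exact lemma: one can always reach `Q + |L| ≤ max |s_v|`. -/
theorem exists_vector_le (D : Finset (V × V)) (hD : ∀ e ∈ D, e.1 ≠ e.2) (a : ℝ) (ha : 0 ≤ a)
    (hs : ∀ v, |sv D v| ≤ a) :
    ∃ x : V → ℝ, (∀ v, x v = 1 ∨ x v = -1) ∧ Qf D x + |Lf D x| ≤ a := by
  have hdec : ∀ A : Finset V, (∀ p ∈ A, ∀ q ∈ A, 0 ≤ sv D p * sv D q) → Dec D 0 A a := by
    intro A hA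
    by_cases hne : A.Nonempty
    · obtain ⟨p, hp, hpmax⟩ := Finset.exists_max_image A (fun u => |sv D u|) hne
      obtain ⟨v, _, hv1, hd, _⟩ := dec_pairing D hD 0 le_rfl A.card A rfl
        (fun p hp q hq h => absurd h (not_lt.mpr (hA p hp q hq))) p hp hpmax
      exact hd.mono (hv1.trans (hs p))
    · rw [Finset.not_nonempty_iff_eq_empty] at hne
      rw [hne]
      exact dec_empty D 0 a ha
  set P : Finset V := Finset.univ.filter (fun v => 0 ≤ sv D v) with hP
  have hdP : Dec D 0 P a := hdec P (by
    intro p hp q hq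
    simp only [hP, Finset.mem_filter, Finset.mem_univ, true_and] at hp hq
    positivity)
  have hdN : Dec D 0 Pᶜ a := hdec Pᶜ (by
    intro p hp q hq
    simp only [hP, Finset.mem_compl, Finset.mem_filter, Finset.mem_univ, true_and, not_le] at hp hq
    exact (mul_pos_of_neg_of_neg hp hq).le)
  obtain ⟨x, x1, x2, x3, x4⟩ := hdP 0 0 (by simp)
  obtain ⟨z, z1, z2, z3, z4⟩ := hdN 0 0 (by simp)
  have hQ0 : Qf D (0 : V → ℝ) = 0 := by simp [Qf]
  simp only [Psi, hQ0, Lf_zero, zero_mul, add_zero, sub_zero] at x3 x4 z3 z4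
  have hQn : Qf D (-z) = Qf D z := by simp [Qf]
  have hBn : Bf D x (-z) = - Bf D x z := by
    have := Bf_add_right D x z (-z)
    rw [add_neg_cancel, Bf_zero_right] at this
    linarith
  have hplus : Qf D (x + z) = Qf D x + Bf D x z + Qf D z := Qf_add D x z
  have hminus : Qf D (x + -z) = Qf D x - Bf D x z + Qf D z := by
    rw [Qf_add, hQn, hBn]; ring
  have hval : ∀ v, ((x + z) v = 1 ∨ (x + z) v = -1) ∧ ((x + -z) v = 1 ∨ (x + -z) v = -1) := by
    intro v
    by_cases hv : v ∈ P
    · have hz : z v = 0 := by
        have := z2 v (by simpa using hv)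
        simpa using this
      simp only [Pi.add_apply, Pi.neg_apply, hz, neg_zero, add_zero]
      exact ⟨x1 v hv, x1 v hv⟩
    · have hx : x v = 0 := by
        have := x2 v hv
        simpa using this
      simp only [Pi.add_apply, Pi.neg_apply, hx, zero_add]
      rcases z1 v (by simpa using hv) with h | h
      · rw [h]; norm_num
      · rw [h]; norm_num
  have hLp : Lf D (x + z) = Lf D x + Lf D z := Lf_add D x z
  have hLm : Lf D (x + -z) = Lf D x - Lf D z := by rw [Lf_add, Lf_neg]; ring
  have hsum : |Lf D x + Lf D z| + |Lf D x - Lf D z| ≤ 2 * a := by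
    obtain ⟨hx1, hx2⟩ := abs_le.mp x4
    obtain ⟨hz1, hz2⟩ := abs_le.mp z4
    rcases abs_cases (Lf D x + Lf D z) with ⟨h1, _⟩ | ⟨h1, _⟩ <;>
      rcases abs_cases (Lf D x - Lf D z) with ⟨h2, _⟩ | ⟨h2, _⟩ <;> rw [h1, h2] <;> linarith
  by_cases hle : Qf D (x + z) + |Lf D (x + z)| ≤ a
  · exact ⟨x + z, fun v => (hval v).1, hle⟩
  · refine ⟨x + -z, fun v => (hval v).2, ?_⟩
    rw [hplus, hLp] at hle
    rw [hminus, hLm]
    push Not at hle
    linarith

end Pool.Agent.Helper953
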