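import Mathlib

/-!
Judicious bipartitions of digraphs (Scott's question, Lee-Loh-Sudakov conjecture).
A digraph on the finite vertex type `V` is the finset `D` of its edges.
-/

namespace Pool.Agent.Helper953

/-- Number of edges of the digraph `D` going from `X` to `Y`. -/
def cutSize {V : Type*} [DecidableEq V] (D : Finset (V × V)) (X Y : Finset V) : ℕ :=
  (D.filter (fun e => e.1 ∈ X ∧ e.2 ∈ Y)).card

/-- The maximum over all bipartitions `(S, Sᶜ)` of the smaller of the two directed cuts. -/
def judicious {V : Type*} [Fintype V] [DecidableEq V] (D : Finset (V × V)) : ℕ :=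
  (Finset.univ : Finset (Finset V)).sup fun S => min (cutSize D S Sᶜ) (cutSize D Sᶜ S)

/-- `D` has no loops and every vertex has outdegree at least `k`. -/
def MinOut {V : Type*} [DecidableEq V] (D : Finset (V × V)) (k : ℕ) : Prop :=
  (∀ e ∈ D, e.1 ≠ e.2) ∧ ∀ v : V, k ≤ (D.filter (fun e => e.1 = v)).card

/-- All ratios `judicious D / e(D)` for digraphs `D` with minimum outdegree at least `k`
and at least `max 1 M` edges. -/
def ratioSet (k M : ℕ) : Set ℝ :=
  {r | ∃ (V : Type) (_ : Fintype V) (_ : DecidableEq V) (D : Finset (V × V)),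
    MinOut D k ∧ 1 ≤ D.card ∧ M ≤ D.card ∧ r = (judicious D : ℝ) / (D.card : ℝ)}

/-- `cInf k M` is the infimum of `judicious D / e(D)` over all digraphs `D` of minimum
outdegree at least `k` with `e(D) ≥ max 1 M`; so `cInf k 0` is the constant `c(k)`. -/
noncomputable def cInf (k M : ℕ) : ℝ := sInf (ratioSet k M)

end Pool.Agent.Helper953
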