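import Pool.Agent.Helper953_LLS.Bound

namespace Pool.Agent.Helper953

open Finset

/-- The connection set of the rotational tournament on `ZMod (2 * j + 1)`. -/
def conn (j : ℕ) : Finset (ZMod (2 * j + 1)) :=
  Finset.univ.filter (fun d => 1 ≤ d.val ∧ d.val ≤ j)

theorem card_conn (j : ℕ) : (conn j).card = j := by
  have h : conn j = (Finset.Icc 1 j).image (fun i : ℕ => (i : ZMod (2 * j + 1))) := by
    ext d
    simp only [conn, Finset.mem_filter, Finset.mem_univ, true_and, Finset.mem_image, Finset.mem_Icc]
    constructor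
    · intro hd
      exact ⟨d.val, hd, ZMod.natCast_rightInverse d⟩
    · rintro ⟨i, hi, rfl⟩
      rw [ZMod.val_natCast, Nat.mod_eq_of_lt (by omega)]
      exact hi
  rw [h, Finset.card_image_of_injOn]
  · simp
  · intro a ha b hb hab
    have ha' : 1 ≤ a ∧ a ≤ j := by simpa using ha
    have hb' : 1 ≤ b ∧ b ≤ j := by simpa using hb
    have h1 : (a : ZMod (2 * j + 1)).val = (b : ZMod (2 * j + 1)).val := by
      simp only at hab
      rw [hab]
    rw [ZMod.val_natCast, ZMod.val_natCast, Nat.mod_eq_of_lt (by omega),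
      Nat.mod_eq_of_lt (by omega)] at h1
    exact h1

theorem conn_dichotomy (j : ℕ) (d : ZMod (2 * j + 1)) (hd : d ≠ 0) :
    (if d ∈ conn j then 1 else 0) + (if -d ∈ conn j then 1 else 0) = 1 := by
  have hv : d.val < 2 * j + 1 := ZMod.val_lt d
  have hv0 : d.val ≠ 0 := by rwa [Ne, ZMod.val_eq_zero]
  have hneg : (-d).val = 2 * j + 1 - d.val := by
    rw [ZMod.neg_val, if_neg hd]
  simp only [conn, Finset.mem_filter, Finset.mem_univ, true_and]
  rw [hneg]
  by_cases h : d.val ≤ j
  · rw [if_pos ⟨by omega, h⟩, if_neg (by omega)]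
  · rw [if_neg (by omega), if_pos (by omega)]

theorem zero_notMem_conn (j : ℕ) : (0 : ZMod (2 * j + 1)) ∉ conn j := by
  simp [conn]

/-- Cuts of the rotational tournament. -/
theorem tournament_cut (j : ℕ) (S : Finset (ZMod (2 * j + 1))) :
    2 * ∑ a ∈ S, (Sᶜ.filter (fun b => b - a ∈ conn j)).card ≤ j * (j + 1) := by
  have hout : ∀ a : ZMod (2 * j + 1), (Finset.univ.filter (fun b => b - a ∈ conn j)).card = j := by
    intro a
    have e : Finset.univ.filter (fun b => b - a ∈ conn j) =
        (conn j).map (Equiv.addRight a).toEmbedding := by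
      ext b
      simp [Finset.mem_map_equiv, sub_eq_add_neg]
    rw [e, Finset.card_map, card_conn]
  have hin : ∀ a : ZMod (2 * j + 1), (Finset.univ.filter (fun b => a - b ∈ conn j)).card = j := by
    intro a
    have e : Finset.univ.filter (fun b => a - b ∈ conn j) =
        (conn j).map (Equiv.subLeft a).toEmbedding := by
      ext b
      simp [Finset.mem_map_equiv, sub_eq_add_neg, add_comm]
    rw [e, Finset.card_map, card_conn]
  have hsplit1 : ∀ a : ZMod (2 * j + 1), (S.filter (fun b => b - a ∈ conn j)).card +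
      (Sᶜ.filter (fun b => b - a ∈ conn j)).card = j := by
    intro a
    rw [← Finset.card_union_of_disjoint (Finset.disjoint_filter_filter disjoint_compl_right),
      ← Finset.filter_union, Finset.union_compl]
    exact hout a
  have hsplit2 : ∀ a : ZMod (2 * j + 1), (S.filter (fun b => a - b ∈ conn j)).card +
      (Sᶜ.filter (fun b => a - b ∈ conn j)).card = j := by
    intro a
    rw [← Finset.card_union_of_disjoint (Finset.disjoint_filter_filter disjoint_compl_right),
      ← Finset.filter_union, Finset.union_compl]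
    exact hin a
  have hSS : ∑ a ∈ S, (S.filter (fun b => b - a ∈ conn j)).card =
      ∑ a ∈ S, (S.filter (fun b => a - b ∈ conn j)).card := by
    simp only [Finset.card_filter]
    rw [Finset.sum_comm]
  have h1 : ∑ a ∈ S, (S.filter (fun b => b - a ∈ conn j)).card +
      ∑ a ∈ S, (Sᶜ.filter (fun b => b - a ∈ conn j)).card = S.card * j := by
    rw [← Finset.sum_add_distrib, Finset.sum_congr rfl (fun a _ => hsplit1 a)]
    simp
  have h2 : ∑ a ∈ S, (S.filter (fun b => a - b ∈ conn j)).card +
      ∑ a ∈ S, (Sᶜ.filter (fun b => a - b ∈ conn j)).card = S.card * j := by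
    rw [← Finset.sum_add_distrib, Finset.sum_congr rfl (fun a _ => hsplit2 a)]
    simp
  have heq : ∑ a ∈ S, (Sᶜ.filter (fun b => b - a ∈ conn j)).card =
      ∑ a ∈ S, (Sᶜ.filter (fun b => a - b ∈ conn j)).card := by omega
  have htot : ∑ a ∈ S, (Sᶜ.filter (fun b => b - a ∈ conn j)).card +
      ∑ a ∈ S, (Sᶜ.filter (fun b => a - b ∈ conn j)).card = S.card * Sᶜ.card := by
    rw [← Finset.sum_add_distrib]
    have : ∀ a ∈ S, (Sᶜ.filter (fun b => b - a ∈ conn j)).card +
        (Sᶜ.filter (fun b => a - b ∈ conn j)).card = Sᶜ.card := by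
      intro a ha
      rw [Finset.card_filter, Finset.card_filter, ← Finset.sum_add_distrib, Finset.card_eq_sum_ones]
      apply Finset.sum_congr rfl
      intro b hb
      have hne : b - a ≠ 0 := by
        intro h
        rw [sub_eq_zero] at h
        rw [Finset.mem_compl, h] at hb
        exact hb ha
      have := conn_dichotomy j (b - a) hne
      rw [neg_sub] at this
      exact this
    rw [Finset.sum_congr rfl this]
    simp
  have hcard : S.card + Sᶜ.card = 2 * j + 1 := by
    rw [Finset.card_add_card_compl, ZMod.card]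
  have hprod : S.card * Sᶜ.card ≤ j * (j + 1) := by
    set s := S.card
    set s' := Sᶜ.card
    have h3 : (s' : ℤ) = 2 * j + 1 - s := by omega
    have h4 : ((s : ℤ) * s') ≤ j * (j + 1) := by
      rw [h3]
      have h5 : 0 ≤ ((j : ℤ) - s) * ((j : ℤ) - s + 1) := by
        rcases le_or_gt 0 ((j : ℤ) - s) with h | h
        · positivity
        · have : (j : ℤ) - s + 1 ≤ 0 := by omega
          nlinarith
      nlinarith
    exact_mod_cast h4
  omega

/-- The adjacency of the extremal digraph: `t` copies of the rotational tournament, a hub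
receiving an edge from everybody, and `j + 1` edges from the hub into the copy `0`. -/
def exRel (j t : ℕ) : Option (Fin t × ZMod (2 * j + 1)) → Option (Fin t × ZMod (2 * j + 1)) → Prop
  | some p, some q => p.1 = q.1 ∧ q.2 - p.2 ∈ conn j
  | some _, none => True
  | none, some q => q.1.val = 0 ∧ q.2.val < j + 1
  | none, none => False

instance (j t : ℕ) (x y : Option (Fin t × ZMod (2 * j + 1))) : Decidable (exRel j t x y) := by
  rcases x with _ | p <;> rcases y with _ | q <;> unfold exRel <;> infer_instance

/-- The extremal digraph. -/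
def exD (j t : ℕ) : Finset (Option (Fin t × ZMod (2 * j + 1)) × Option (Fin t × ZMod (2 * j + 1))) :=
  Finset.univ.filter (fun e => exRel j t e.1 e.2)

theorem exD_minOut (j t : ℕ) (ht : 1 ≤ t) : MinOut (exD j t) (j + 1) := by
  constructor
  · rintro ⟨x, y⟩ he hxy
    simp only [exD, Finset.mem_filter, Finset.mem_univ, true_and] at he
    simp only at hxy
    subst hxy
    rcases x with _ | p
    · exact he
    · simp only [exRel, sub_self] at he
      exact zero_notMem_conn j he.2
  · rintro (_ | ⟨i, a⟩)
    · -- the hub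
      have hinj : Set.InjOn (fun n : ℕ => ((none : Option (Fin t × ZMod (2 * j + 1))),
          some ((⟨0, ht⟩ : Fin t), (n : ZMod (2 * j + 1))))) (Finset.range (j + 1)) := by
        intro a ha b hb hab
        simp only [Finset.coe_range, Set.mem_Iio] at ha hb
        simp only [Prod.mk.injEq, Option.some.injEq, true_and] at hab
        have h1 : (a : ZMod (2 * j + 1)).val = (b : ZMod (2 * j + 1)).val := by rw [hab]
        rw [ZMod.val_natCast, ZMod.val_natCast, Nat.mod_eq_of_lt (by omega),
          Nat.mod_eq_of_lt (by omega)] at h1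
        exact h1
      calc j + 1 = (Finset.range (j + 1)).card := (Finset.card_range _).symm
        _ = ((Finset.range (j + 1)).image (fun n : ℕ => ((none : Option (Fin t × ZMod (2 * j + 1))),
          some ((⟨0, ht⟩ : Fin t), (n : ZMod (2 * j + 1)))))).card :=
            (Finset.card_image_of_injOn hinj).symm
        _ ≤ _ := by
          apply Finset.card_le_card
          intro e he
          rw [Finset.mem_image] at he
          obtain ⟨n, hn, rfl⟩ := he
          rw [Finset.mem_range] at hn
          simp only [exD, Finset.mem_filter, Finset.mem_univ, true_and, and_true]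
          refine ⟨rfl, ?_⟩
          rw [ZMod.val_natCast, Nat.mod_eq_of_lt (by omega)]
          exact hn
    · have hsub : insert (some (i, a), none) ((conn j).image
          (fun d => ((some (i, a) : Option (Fin t × ZMod (2 * j + 1))), some (i, a + d)))) ⊆
          (exD j t).filter (fun e => e.1 = some (i, a)) := by
        intro e he
        rw [Finset.mem_insert, Finset.mem_image] at he
        rcases he with rfl | ⟨d, hd, rfl⟩
        · simp [exD, exRel]
        · simp only [exD, Finset.mem_filter, Finset.mem_univ, true_and, and_true, exRel]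
          rw [add_sub_cancel_left]
          exact hd
      have hc := Finset.card_le_card hsub
      rw [Finset.card_insert_of_notMem, Finset.card_image_of_injective, card_conn] at hc
      · exact hc
      · intro d d' h
        simpa using h
      · rw [Finset.mem_image]
        rintro ⟨d, _, h⟩
        simp at h

theorem exD_cut (j t : ℕ) (T : Finset (Option (Fin t × ZMod (2 * j + 1)))) (hT : none ∈ T) :
    2 * cutSize (exD j t) T Tᶜ ≤ 2 * (j + 1) + t * (j * (j + 1)) := by
  classical
  unfold cutSize
  set Ti : Fin t → Finset (ZMod (2 * j + 1)) := fun i =>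
    Finset.univ.filter (fun a => some (i, a) ∈ T) with hTi
  have hsub : (exD j t).filter (fun e => e.1 ∈ T ∧ e.2 ∈ Tᶜ) ⊆
      ((Finset.range (j + 1)).biUnion (fun n => (Finset.univ.filter (fun i : Fin t => i.val = 0)).image
        (fun i => ((none : Option (Fin t × ZMod (2 * j + 1))), some (i, (n : ZMod (2 * j + 1))))))) ∪
      Finset.univ.biUnion (fun i : Fin t => (Ti i).biUnion (fun a =>
        ((Ti i)ᶜ.filter (fun b => b - a ∈ conn j)).image (fun b => (some (i, a), some (i, b))))) := by
    rintro ⟨x, y⟩ he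
    simp only [exD, Finset.mem_filter, Finset.mem_univ, true_and, Finset.mem_compl] at he
    obtain ⟨hr, hx, hy⟩ := he
    rw [Finset.mem_union]
    rcases x with _ | ⟨i, a⟩
    · rcases y with _ | ⟨i', b⟩
      · exact absurd hr id
      · left
        simp only [exRel] at hr
        rw [Finset.mem_biUnion]
        refine ⟨b.val, Finset.mem_range.mpr hr.2, ?_⟩
        rw [Finset.mem_image]
        refine ⟨i', by simpa using hr.1, ?_⟩
        rw [ZMod.natCast_rightInverse b]
    · rcases y with _ | ⟨i', b⟩
      · exact absurd hT hy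
      · right
        simp only [exRel] at hr
        obtain ⟨hii, hconn⟩ := hr
        subst hii
        rw [Finset.mem_biUnion]
        refine ⟨i, Finset.mem_univ _, ?_⟩
        rw [Finset.mem_biUnion]
        refine ⟨a, by simpa [hTi] using hx, ?_⟩
        rw [Finset.mem_image]
        exact ⟨b, by simpa [hTi, hconn] using hy, rfl⟩
  have hc := (Finset.card_le_card hsub).trans (Finset.card_union_le _ _)
  have h1 : ((Finset.range (j + 1)).biUnion (fun n => (Finset.univ.filter (fun i : Fin t => i.val = 0)).image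
        (fun i => ((none : Option (Fin t × ZMod (2 * j + 1))), some (i, (n : ZMod (2 * j + 1))))))).card
      ≤ j + 1 := by
    refine Finset.card_biUnion_le.trans ?_
    calc ∑ n ∈ Finset.range (j + 1), ((Finset.univ.filter (fun i : Fin t => i.val = 0)).image
        (fun i => ((none : Option (Fin t × ZMod (2 * j + 1))),
          some (i, (n : ZMod (2 * j + 1)))))).card ≤ ∑ n ∈ Finset.range (j + 1), 1 := by
          apply Finset.sum_le_sum
          intro n _
          refine Finset.card_image_le.trans ?_
          rw [Finset.card_le_one]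
          intro a ha b hb
          rw [Finset.mem_filter] at ha hb
          exact Fin.ext (ha.2.trans hb.2.symm)
      _ = j + 1 := by simp
  have h2 : 2 * (Finset.univ.biUnion (fun i : Fin t => (Ti i).biUnion (fun a =>
        ((Ti i)ᶜ.filter (fun b => b - a ∈ conn j)).image
          (fun b => ((some (i, a) : Option (Fin t × ZMod (2 * j + 1))),
            (some (i, b) : Option (Fin t × ZMod (2 * j + 1)))))))).card
      ≤ t * (j * (j + 1)) := by
    have h3 : (Finset.univ.biUnion (fun i : Fin t => (Ti i).biUnion (fun a =>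
        ((Ti i)ᶜ.filter (fun b => b - a ∈ conn j)).image
          (fun b => ((some (i, a) : Option (Fin t × ZMod (2 * j + 1))),
            (some (i, b) : Option (Fin t × ZMod (2 * j + 1)))))))).card ≤
        ∑ i : Fin t, ∑ a ∈ Ti i, ((Ti i)ᶜ.filter (fun b => b - a ∈ conn j)).card := by
      refine Finset.card_biUnion_le.trans (Finset.sum_le_sum ?_)
      intro i _
      refine Finset.card_biUnion_le.trans (Finset.sum_le_sum ?_)
      intro a _
      exact Finset.card_image_le
    calc _ ≤ 2 * ∑ i : Fin t, ∑ a ∈ Ti i, ((Ti i)ᶜ.filter (fun b => b - a ∈ conn j)).card :=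
          Nat.mul_le_mul_left 2 h3
      _ = ∑ i : Fin t, 2 * ∑ a ∈ Ti i, ((Ti i)ᶜ.filter (fun b => b - a ∈ conn j)).card := by
          rw [Finset.mul_sum]
      _ ≤ ∑ _i : Fin t, j * (j + 1) := Finset.sum_le_sum (fun i _ => tournament_cut j (Ti i))
      _ = t * (j * (j + 1)) := by simp
  omega

theorem exD_judicious (j t : ℕ) : 2 * judicious (exD j t) ≤ 2 * (j + 1) + t * (j * (j + 1)) := by
  have h : judicious (exD j t) ≤ (2 * (j + 1) + t * (j * (j + 1))) / 2 := by
    unfold judicious
    apply Finset.sup_le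
    intro S _
    rw [Nat.le_div_iff_mul_le (by norm_num)]
    by_cases hS : none ∈ S
    · have := exD_cut j t S hS
      have h2 := min_le_left (cutSize (exD j t) S Sᶜ) (cutSize (exD j t) Sᶜ S)
      omega
    · have := exD_cut j t Sᶜ (by simpa using hS)
      rw [compl_compl] at this
      have h2 := min_le_right (cutSize (exD j t) S Sᶜ) (cutSize (exD j t) Sᶜ S)
      omega
  omega

theorem exD_card (j t : ℕ) (ht : 1 ≤ t) : (j + 1) * (t * (2 * j + 1) + 1) ≤ (exD j t).card := by
  have h := card_mul_le (exD j t) (j + 1) (exD_minOut j t ht)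
  rw [Fintype.card_option, Fintype.card_prod, Fintype.card_fin, ZMod.card] at h
  exact h

/-- Upper bound: arbitrarily large digraphs with ratio close to `(k-1)/(2(2k-1))`. -/
theorem exists_ratio_le (k : ℕ) (hk : 1 ≤ k) (M : ℕ) (ε : ℝ) (hε : 0 < ε) :
    ∃ r ∈ ratioSet k M, r ≤ ((k : ℝ) - 1) / (2 * (2 * k - 1)) + ε := by
  obtain ⟨j, rfl⟩ : ∃ j, k = j + 1 := ⟨k - 1, by omega⟩
  obtain ⟨t, ht⟩ := exists_nat_ge (max (1 / ε) (max (M : ℝ) 1))
  have ht1 : 1 / ε ≤ (t : ℝ) := (le_max_left _ _).trans ht
  have ht2 : (M : ℝ) ≤ t := ((le_max_left _ _).trans (le_max_right _ _)).trans ht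
  have ht3 : (1 : ℝ) ≤ t := ((le_max_right _ _).trans (le_max_right _ _)).trans ht
  have ht2' : M ≤ t := by exact_mod_cast ht2
  have ht3' : 1 ≤ t := by exact_mod_cast ht3
  have hc := exD_card j t ht3'
  have hc1 : t ≤ (exD j t).card := by
    have e1 : t ≤ t * (2 * j + 1) := Nat.le_mul_of_pos_right _ (by omega)
    have e2 : t * (2 * j + 1) + 1 ≤ (j + 1) * (t * (2 * j + 1) + 1) :=
      Nat.le_mul_of_pos_left _ (by omega)
    omega
  refine ⟨_, ⟨_, inferInstance, inferInstance, exD j t, exD_minOut j t ht3', ht3'.trans hc1,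
    ht2'.trans hc1, rfl⟩, ?_⟩
  have hm0 : (0 : ℝ) < (exD j t).card := by
    have : 0 < (exD j t).card := by omega
    exact_mod_cast this
  rw [div_le_iff₀ hm0]
  have hj : (2 : ℝ) * judicious (exD j t) ≤ 2 * (j + 1) + t * (j * (j + 1)) := by
    exact_mod_cast exD_judicious j t
  have hcR : ((j : ℝ) + 1) * (t * (2 * j + 1) + 1) ≤ (exD j t).card := by exact_mod_cast hc
  have hj0 : (0 : ℝ) ≤ j := Nat.cast_nonneg j
  have hεt : 1 ≤ ε * t := by
    rw [div_le_iff₀ hε] at ht1
    linarith
  have hcoef : 0 ≤ (((j + 1 : ℕ) : ℝ) - 1) / (2 * (2 * ((j + 1 : ℕ) : ℝ) - 1)) := by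
    push_cast
    apply div_nonneg <;> linarith
  have h1 : (((j + 1 : ℕ) : ℝ) - 1) / (2 * (2 * ((j + 1 : ℕ) : ℝ) - 1)) *
      (((j : ℝ) + 1) * (t * (2 * j + 1) + 1)) ≥ t * (j * (j + 1)) / 2 := by
    push_cast
    have h2 : ((j : ℝ) + 1 - 1) / (2 * (2 * (j + 1) - 1)) * (((j : ℝ) + 1) * (t * (2 * j + 1) + 1)) =
        t * (j * (j + 1)) / 2 + j * (j + 1) / (2 * (2 * j + 1)) := by
      have h3 : (2 * (2 * ((j : ℝ) + 1) - 1)) = 2 * (2 * j + 1) := by ring
      have h4 : (2 * (2 * (j : ℝ) + 1)) ≠ 0 := by nlinarith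
      rw [h3]
      field_simp
      ring
    rw [h2]
    have : 0 ≤ (j : ℝ) * (j + 1) / (2 * (2 * j + 1)) := by positivity
    linarith
  have h2 : (((j + 1 : ℕ) : ℝ) - 1) / (2 * (2 * ((j + 1 : ℕ) : ℝ) - 1)) * ((exD j t).card : ℝ) ≥
      t * (j * (j + 1)) / 2 := le_trans h1 (mul_le_mul_of_nonneg_left hcR hcoef)
  have h3 : ε * ((exD j t).card : ℝ) ≥ j + 1 := by
    have h4 : ε * ((exD j t).card : ℝ) ≥ ε * (((j : ℝ) + 1) * (t * (2 * j + 1) + 1)) :=
      mul_le_mul_of_nonneg_left hcR hε.le
    have h5 : ε * (((j : ℝ) + 1) * (t * (2 * j + 1) + 1)) ≥ j + 1 := by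
      have h6 : ε * (((j : ℝ) + 1) * (t * (2 * j + 1) + 1)) =
          (j + 1) * ((ε * t) * (2 * j + 1) + ε) := by ring
      rw [h6]
      have h7 : 1 ≤ (ε * t) * (2 * j + 1) + ε := by nlinarith
      nlinarith
    linarith
  rw [add_mul]
  linarith

end Pool.Agent.Helper953
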