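import Pool.Agent.Helper953_LLS.Example

namespace Pool.Agent.Helper953

open Finset

theorem ratioSet_nonneg (k M : ℕ) (r : ℝ) (hr : r ∈ ratioSet k M) : 0 ≤ r := by
  obtain ⟨V, _, _, D, _, _, _, rfl⟩ := hr
  positivity

theorem ratioSet_bddBelow (k M : ℕ) : BddBelow (ratioSet k M) :=
  ⟨0, fun r hr => ratioSet_nonneg k M r hr⟩

theorem cInf_le (k : ℕ) (hk : 1 ≤ k) (M : ℕ) :
    cInf k M ≤ ((k : ℝ) - 1) / (2 * (2 * k - 1)) := by
  apply le_of_forall_pos_le_add
  intro ε hε
  obtain ⟨r, hr, hle⟩ := exists_ratio_le k hk M ε hε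
  exact (csInf_le (ratioSet_bddBelow k M) hr).trans hle

theorem le_cInf (k : ℕ) (hk : 1 ≤ k) (M : ℕ) (c : ℝ) (h : ∀ r ∈ ratioSet k M, c ≤ r) :
    c ≤ cInf k M := by
  obtain ⟨r, hr, _⟩ := exists_ratio_le k hk M 1 one_pos
  exact le_csInf ⟨r, hr⟩ h

theorem asymptotic_bound' (k : ℕ) (hk : 1 ≤ k) (ε : ℝ) (hε : 0 < ε) :
    ∃ m₀ : ℕ, ∀ M : ℕ, m₀ ≤ M → ((k : ℝ) - 1) / (2 * (2 * k - 1)) - ε ≤ cInf k M := by
  rcases Nat.lt_or_ge k 2 with hk2 | hk2
  · have hk1 : k = 1 := by omega
    subst hk1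
    refine ⟨0, fun M _ => ?_⟩
    apply le_cInf 1 le_rfl
    intro r hr
    have := ratioSet_nonneg _ _ _ hr
    norm_num
    linarith
  · obtain ⟨m₀, hm₀⟩ := asymptotic_bound k hk2 ε hε
    refine ⟨m₀, fun M hM => ?_⟩
    apply le_cInf k hk
    rintro r ⟨V, hV, hV', D, h1, h2, h3, rfl⟩
    exact hm₀ V hV hV' D h1 h2 (hM.trans h3)

theorem tendsto_cInf (k : ℕ) (hk : 1 ≤ k) :
    Filter.Tendsto (fun M => cInf k M) Filter.atTop
      (nhds (((k : ℝ) - 1) / (2 * (2 * k - 1)))) := by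
  rw [Metric.tendsto_atTop]
  intro ε hε
  obtain ⟨m₀, hm₀⟩ := asymptotic_bound' k hk (ε / 2) (by linarith)
  refine ⟨m₀, fun M hM => ?_⟩
  rw [Real.dist_eq, abs_lt]
  have h1 := hm₀ M hM
  have h2 := cInf_le k hk M
  constructor <;> linarith

/-- Exact lower bound. -/
theorem exact_lower (k : ℕ) (hk : 1 ≤ k) (M : ℕ) : ((k : ℝ) - 1) / (4 * k) ≤ cInf k M := by
  apply le_cInf k hk
  rintro r ⟨V, _, _, D, hD, hm, _, rfl⟩
  have hkpos : (0 : ℝ) < k := by exact_mod_cast hk
  have hm0 : (0 : ℝ) < D.card := by exact_mod_cast hm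
  have hs : ∀ v, |sv D v| ≤ (D.card : ℝ) / k := by
    intro v
    have hn := card_mul_le D k hD
    -- out-degree and in-degree are at most `n`
    have h1 : sv D v = ((D.filter (fun e => e.1 = v)).card : ℝ) - (D.filter (fun e => e.2 = v)).card := by
      unfold sv Lf
      rw [Finset.card_filter, Finset.card_filter]
      push_cast
      rw [← Finset.sum_sub_distrib]
      apply Finset.sum_congr rfl
      intro e _
      simp only [Pi.single_apply]
    have h2 : (D.filter (fun e => e.1 = v)).card ≤ Fintype.card V := by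
      rw [← Finset.card_univ]
      apply Finset.card_le_card_of_injOn (fun e => e.2) (fun _ _ => Finset.mem_coe.mpr (Finset.mem_univ _))
      intro e he e' he' h
      simp only [Finset.coe_filter, Set.mem_setOf_eq] at he he'
      exact Prod.ext (he.2.trans he'.2.symm) h
    have h3 : (D.filter (fun e => e.2 = v)).card ≤ Fintype.card V := by
      rw [← Finset.card_univ]
      apply Finset.card_le_card_of_injOn (fun e => e.1) (fun _ _ => Finset.mem_coe.mpr (Finset.mem_univ _))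
      intro e he e' he' h
      simp only [Finset.coe_filter, Set.mem_setOf_eq] at he he'
      exact Prod.ext h (he.2.trans he'.2.symm)
    have h2' : ((D.filter (fun e => e.1 = v)).card : ℝ) ≤ Fintype.card V := by exact_mod_cast h2
    have h3' : ((D.filter (fun e => e.2 = v)).card : ℝ) ≤ Fintype.card V := by exact_mod_cast h3
    have h4 : (0 : ℝ) ≤ (D.filter (fun e => e.1 = v)).card := Nat.cast_nonneg _
    have h5 : (0 : ℝ) ≤ (D.filter (fun e => e.2 = v)).card := Nat.cast_nonneg _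
    have h6 : (Fintype.card V : ℝ) ≤ (D.card : ℝ) / k := by
      rw [le_div_iff₀ hkpos]
      have : (k : ℝ) * Fintype.card V ≤ D.card := by exact_mod_cast hn
      linarith
    rw [h1, abs_le]
    constructor <;> linarith
  obtain ⟨x, hx1, hx2⟩ := exists_vector_le D hD.1 ((D.card : ℝ) / k) (by positivity) hs
  have hj := judicious_ge_of_vector D x hx1 _ hx2
  rw [le_div_iff₀ hm0]
  have : ((k : ℝ) - 1) / (4 * k) * D.card = ((D.card : ℝ) - D.card / k) / 4 := by
    field_simp
  rw [this]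
  exact hj

end Pool.Agent.Helper953
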