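import Pool.Agent.Helper953_LLS.Proc

namespace Pool.Agent.Helper953

open Finset

variable {V : Type*} [Fintype V] [DecidableEq V]

omit [Fintype V] in
/-- Star induction: a rooted connected set can be decided at cost `-(|K|-1)/2`. -/
theorem proc_large [Fintype V] (D : Finset (V × V)) (hD : ∀ e ∈ D, e.1 ≠ e.2) (M : ℝ)
    (v : V) (f : V → ℕ) (hfv : f v = 0) (a : V → ℝ) :
    ∀ (n : ℕ) (K : Finset V), K.card = n → v ∈ K →
      (∀ x ∈ K, x ≠ v → ∃ y ∈ K, Ad D x y ∧ f y + 1 = f x) →
      (∀ u ∈ K, a u = 0) → (∀ u ∈ K, (dg D u : ℝ) + 1 ≤ M) →
      Proc D (M ^ 4) K a (-(((K.card : ℝ) - 1) / 2)) := by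
  intro n
  induction n using Nat.strong_induction_on with
  | _ n ih =>
    intro K hn hv hpar ha hM
    -- reduction step
    have step : ∀ (w : V) (T : Finset V), w ∉ T → (∀ u ∈ T, Ad D w u) →
        (∀ u ∈ T, ∀ u' ∈ T, ¬ Ad D u u') → T.Nonempty → insert w T ⊆ K →
        (v ∈ insert w T → insert w T = K) →
        (v ∉ insert w T → ∀ x ∈ K \ insert w T, x ≠ v → ∃ y ∈ K \ insert w T, Ad D x y ∧ f y + 1 = f x) →
        Proc D (M ^ 4) K a (-(((K.card : ℝ) - 1) / 2)) := by
      intro w T hw hT hind hTne hsub hvb hrest
      have hstar := proc_star D hD M w T hw hT hind a (fun u hu => ha u (hsub hu))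
        (fun u hu => hM u (hsub hu))
      have hbc : (insert w T).card = T.card + 1 := Finset.card_insert_of_notMem hw
      have hT1 : (1 : ℝ) ≤ T.card := by exact_mod_cast hTne.card_pos
      by_cases hvm : v ∈ insert w T
      · have hK := hvb hvm
        rw [hK] at hstar hbc
        apply hstar.mono
        rw [hbc]; push_cast
        linarith
      · have hKc : (K \ insert w T).card = K.card - (insert w T).card :=
          Finset.card_sdiff_of_subset hsub
        have hlt : (K \ insert w T).card < n := by
          rw [hKc, hbc, hn]
          have : 0 < K.card := Finset.card_pos.mpr ⟨v, hv⟩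
          omega
        have hrec := ih _ hlt (K \ insert w T) rfl (by simp only [Finset.mem_sdiff]; exact ⟨hv, hvm⟩)
          (hrest hvm) (fun u hu => ha u (Finset.mem_sdiff.mp hu).1)
          (fun u hu => hM u (Finset.mem_sdiff.mp hu).1)
        have hun := proc_union (Finset.disjoint_sdiff (s := insert w T) (t := K)) hstar hrec
        rw [Finset.union_sdiff_of_subset hsub] at hun
        apply hun.mono
        have hcc : ((K \ insert w T).card : ℝ) = K.card - (T.card + 1) := by
          have h1 := Finset.card_sdiff_add_card_eq_card hsub
          rw [hbc] at h1
          have h2 : ((K \ insert w T).card : ℝ) + (T.card + 1) = K.card := by exact_mod_cast h1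
          linarith
        rw [hcc]
        linarith
    by_cases hK1 : K = {v}
    · rw [hK1]
      have := proc_star D hD M v ∅ (by simp) (by simp) (by simp) a (fun u hu => ha u (by
        rw [hK1]; simpa using hu)) (fun u hu => hM u (by rw [hK1]; simpa using hu))
      simpa using this
    · -- top level
      obtain ⟨x₀, hx₀, hx₀max⟩ := Finset.exists_max_image K f ⟨v, hv⟩
      have hex : ∃ x ∈ K, x ≠ v := by
        by_contra hcon
        push Not at hcon
        apply hK1
        ext u
        simp only [Finset.mem_singleton]
        exact ⟨fun h => hcon u h, fun h => h ▸ hv⟩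
      obtain ⟨x₁, hx₁, hx₁v⟩ := hex
      have hpos : 1 ≤ f x₀ := by
        obtain ⟨y, _, _, hy⟩ := hpar x₁ hx₁ hx₁v
        have := hx₀max x₁ hx₁
        omega
      set ℓ := f x₀ with hℓ
      set Top : Finset V := K.filter (fun x => f x = ℓ) with hTop
      have htopne : ∀ x ∈ Top, x ≠ v := by
        intro x hx h
        rw [hTop, Finset.mem_filter] at hx
        rw [h, hfv] at hx
        omega
      have hTopK : Top ⊆ K := Finset.filter_subset _ _
      by_cases hedge : ∃ u ∈ Top, ∃ u' ∈ Top, Ad D u u'
      · obtain ⟨u, hu, u', hu', hadj⟩ := hedge
        have huu' : u ≠ u' := by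
          intro h
          rw [h] at hadj
          rcases hadj with h1 | h1 <;> exact hD _ h1 rfl
        have hsub : insert u ({u'} : Finset V) ⊆ K := by
          intro z hz
          simp only [Finset.mem_insert, Finset.mem_singleton] at hz
          rcases hz with h | h <;> rw [h]
          · exact hTopK hu
          · exact hTopK hu'
        have hvn : v ∉ insert u ({u'} : Finset V) := by
          simp only [Finset.mem_insert, Finset.mem_singleton, not_or]
          exact ⟨(htopne u hu).symm, (htopne u' hu').symm⟩
        apply step u {u'} (by simpa using huu')
          (by intro z hz; rw [Finset.mem_singleton] at hz; rw [hz]; exact hadj)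
          (by
            intro z hz z' hz' h
            rw [Finset.mem_singleton] at hz hz'
            rw [hz, hz'] at h
            rcases h with h1 | h1 <;> exact hD _ h1 rfl)
          (by simp) hsub (fun h => absurd h hvn)
        intro _ x hx hxv
        rw [Finset.mem_sdiff] at hx
        obtain ⟨y, hyK, hady, hy⟩ := hpar x hx.1 hxv
        refine ⟨y, ?_, hady, hy⟩
        rw [Finset.mem_sdiff]
        refine ⟨hyK, ?_⟩
        have hxℓ := hx₀max x hx.1
        intro hyin
        simp only [Finset.mem_insert, Finset.mem_singleton] at hyin
        have hfy : f y = ℓ := by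
          rcases hyin with h | h <;> rw [h]
          · exact (Finset.mem_filter.mp hu).2
          · exact (Finset.mem_filter.mp hu').2
        omega
      · push Not at hedge
        have hx₀Top : x₀ ∈ Top := by rw [hTop, Finset.mem_filter]; exact ⟨hx₀, rfl⟩
        obtain ⟨w, hwK, hadw, hfw⟩ := hpar x₀ hx₀ (htopne x₀ hx₀Top)
        classical
        set T : Finset V := Top.filter (fun u => Ad D w u ∧
          (u = x₀ ∨ ∀ y ∈ K, Ad D u y → f y + 1 = f u → y = w)) with hT
        have hTT : T ⊆ Top := Finset.filter_subset _ _
        have hwT : w ∉ T := by
          intro h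
          have := (Finset.mem_filter.mp (hTT h)).2
          omega
        have hx₀T : x₀ ∈ T := by
          rw [hT, Finset.mem_filter]
          refine ⟨hx₀Top, ?_, Or.inl rfl⟩
          rcases hadw with h | h
          · exact Or.inr h
          · exact Or.inl h
        have hsub : insert w T ⊆ K := by
          intro z hz
          rcases Finset.mem_insert.mp hz with h | h
          · rw [h]; exact hwK
          · exact hTopK (hTT h)
        apply step w T hwT (fun u hu => (Finset.mem_filter.mp hu).2.1)
          (fun u hu u' hu' => hedge u (hTT hu) u' (hTT hu')) ⟨x₀, hx₀T⟩ hsub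
        · intro hvb
          have hwv : w = v := by
            rcases Finset.mem_insert.mp hvb with h | h
            · exact h.symm
            · exact absurd rfl (htopne v (hTT h))
          have hℓ1 : ℓ = 1 := by rw [hwv, hfv] at hfw; omega
          apply Finset.Subset.antisymm hsub
          intro x hx
          by_cases hxv : x = v
          · rw [hxv, hwv]; exact Finset.mem_insert_self _ _
          · apply Finset.mem_insert_of_mem
            have hxl := hx₀max x hx
            obtain ⟨y, hyK, hady, hy⟩ := hpar x hx hxv
            have hfx : f x = 1 := by omega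
            have hyv : ∀ y ∈ K, f y = 0 → y = v := by
              intro y hyK hfy
              by_contra hcon
              obtain ⟨z, _, _, hz⟩ := hpar y hyK hcon
              omega
            rw [hT, Finset.mem_filter, hTop, Finset.mem_filter]
            have hyw : y = w := by rw [hwv]; exact hyv y hyK (by omega)
            refine ⟨⟨hx, by omega⟩, ?_, Or.inr ?_⟩
            · rw [hyw] at hady
              rcases hady with h | h
              · exact Or.inr h
              · exact Or.inl h
            · intro z hzK _ hz
              rw [hwv]; exact hyv z hzK (by omega)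
        · intro hvb x hx hxv
          rw [Finset.mem_sdiff] at hx
          have hxl := hx₀max x hx.1
          by_cases hxtop : f x = ℓ
          · -- x at top level, not in T
            have hxT : x ∉ T := fun h => hx.2 (Finset.mem_insert_of_mem h)
            have hxTop : x ∈ Top := by rw [hTop, Finset.mem_filter]; exact ⟨hx.1, hxtop⟩
            have : ∃ y ∈ K, Ad D x y ∧ f y + 1 = f x ∧ y ≠ w := by
              by_contra hcon
              push Not at hcon
              apply hxT
              rw [hT, Finset.mem_filter]
              obtain ⟨y, hyK, hady, hy⟩ := hpar x hx.1 hxv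
              have hyw := hcon y hyK hady hy
              refine ⟨hxTop, ?_, Or.inr hcon⟩
              rw [hyw] at hady
              rcases hady with h | h
              · exact Or.inr h
              · exact Or.inl h
            obtain ⟨y, hyK, hady, hy, hyw⟩ := this
            refine ⟨y, ?_, hady, hy⟩
            rw [Finset.mem_sdiff]
            refine ⟨hyK, ?_⟩
            intro hyin
            rcases Finset.mem_insert.mp hyin with h | h
            · exact hyw h
            · have := (Finset.mem_filter.mp (hTT h)).2
              omega
          · obtain ⟨y, hyK, hady, hy⟩ := hpar x hx.1 hxv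
            refine ⟨y, ?_, hady, hy⟩
            rw [Finset.mem_sdiff]
            refine ⟨hyK, ?_⟩
            intro hyin
            rcases Finset.mem_insert.mp hyin with h | h
            · rw [h] at hy; omega
            · have := (Finset.mem_filter.mp (hTT h)).2
              omega

end Pool.Agent.Helper953
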