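import Pool.Agent.Helper953_LLS.Comp

namespace Pool.Agent.Helper953

open Finset

variable {V : Type*} [Fintype V] [DecidableEq V]

/-- Finishing lemma. -/
theorem finish (D : Finset (V × V)) (C : ℝ) (W : Finset V) (a : V → ℝ) (q : ℝ)
    (hp : Proc D C W a q) (y : V → ℝ) (hy : ∀ u ∈ W, y u = a u)
    (hy' : ∀ u, u ∉ W → y u = 1 ∨ y u = -1) (r : ℝ) (hr : 0 < r) (hrC : C * W.card ≤ r ^ 2) :
    ∃ x : V → ℝ, (∀ v, x v = 1 ∨ x v = -1) ∧ Qf D x + |Lf D x| ≤ Qf D y + |Lf D y| + q + r := by
  set c := |Lf D y| + r with hc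
  have hcpos : 0 < c := by have := abs_nonneg (Lf D y); linarith
  obtain ⟨x, h1, h2, h3⟩ := hp (1 / (2 * c)) 0 (by positivity) y hy
  refine ⟨x, ?_, ?_⟩
  · intro v
    by_cases hv : v ∈ W
    · exact h1 v hv
    · rw [h2 v hv]; exact hy' v hv
  · simp only [Psi, zero_mul, add_zero] at h3
    have hlow : |Lf D x| ≤ 1 / (2 * c) * (Lf D x) ^ 2 + c / 2 := by
      have h4 : 0 ≤ (|Lf D x| - c) ^ 2 / (2 * c) := by positivity
      have h5 : (|Lf D x| - c) ^ 2 / (2 * c) = 1 / (2 * c) * (Lf D x) ^ 2 + c / 2 - |Lf D x| := by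
        rw [← sq_abs (Lf D x)]
        field_simp
        ring
      linarith
    have hup : 1 / (2 * c) * (Lf D y) ^ 2 + c / 2 + 1 / (2 * c) * C * W.card ≤ |Lf D y| + r := by
      have h6 : 1 / (2 * c) * C * W.card ≤ 1 / (2 * c) * r ^ 2 := by
        rw [mul_assoc]
        exact mul_le_mul_of_nonneg_left hrC (by positivity)
      have h7 : 1 / (2 * c) * (Lf D y) ^ 2 + c / 2 + 1 / (2 * c) * r ^ 2 ≤ |Lf D y| + r := by
        have h8 : 1 / (2 * c) * (Lf D y) ^ 2 + c / 2 + 1 / (2 * c) * r ^ 2 - (|Lf D y| + r) =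
            (|Lf D y| ^ 2 + c ^ 2 + r ^ 2 - 2 * c * (|Lf D y| + r)) / (2 * c) := by
          rw [← sq_abs (Lf D y)]
          field_simp
        have h9 : |Lf D y| ^ 2 + c ^ 2 + r ^ 2 - 2 * c * (|Lf D y| + r) ≤ 0 := by
          rw [hc]
          have := abs_nonneg (Lf D y)
          nlinarith
        have h10 : (|Lf D y| ^ 2 + c ^ 2 + r ^ 2 - 2 * c * (|Lf D y| + r)) / (2 * c) ≤ 0 :=
          div_nonpos_of_nonpos_of_nonneg h9 (by positivity)
        linarith
      linarith
    linarith

omit [Fintype V] in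
/-- Charging every edge to its endpoint different from `h` (the tail when possible). -/
theorem charge_sum [Fintype V] (D : Finset (V × V)) (hD : ∀ e ∈ D, e.1 ≠ e.2) (h : V)
    (F : V × V → ℝ) :
    ∑ e ∈ D, F e = ∑ u ∈ Finset.univ.erase h, (∑ e ∈ D.filter (fun e => e.1 = u), F e +
      ∑ e ∈ (D.filter (fun e => e.1 = h)).filter (fun e => e.2 = u), F e) := by
  rw [Finset.sum_add_distrib]
  have h1 : ∑ e ∈ D, F e = ∑ u, ∑ e ∈ D.filter (fun e => e.1 = u), F e :=
    (Finset.sum_fiberwise D (fun e => e.1) F).symm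
  have h2 : ∑ e ∈ D.filter (fun e => e.1 = h), F e =
      ∑ u, ∑ e ∈ (D.filter (fun e => e.1 = h)).filter (fun e => e.2 = u), F e :=
    (Finset.sum_fiberwise (D.filter (fun e => e.1 = h)) (fun e => e.2) F).symm
  have h3 : ∑ e ∈ (D.filter (fun e => e.1 = h)).filter (fun e => e.2 = h), F e = 0 := by
    apply Finset.sum_eq_zero
    intro e he
    rw [Finset.mem_filter, Finset.mem_filter] at he
    exact absurd (he.1.2.trans he.2.symm) (hD e he.1.1)
  rw [← Finset.add_sum_erase Finset.univ _ (Finset.mem_univ h), h3, zero_add] at h2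
  rw [h1, ← Finset.add_sum_erase Finset.univ _ (Finset.mem_univ h), h2]
  ring

omit [Fintype V] in
theorem out_bound (D : Finset (V × V)) (k : ℕ) (hk : ∀ v : V, k ≤ (D.filter (fun e => e.1 = v)).card)
    (h u : V) (F : V × V → ℝ) (g p : ℝ) (hg : 0 ≤ g) (hp : 0 ≤ p)
    (hF : ∀ e ∈ D, e.1 = u → g - (if e.2 = h then p else 0) ≤ F e) :
    g * k - p ≤ ∑ e ∈ D.filter (fun e => e.1 = u), F e := by
  have h1 : ∑ e ∈ D.filter (fun e => e.1 = u), (g - (if e.2 = h then p else 0)) ≤
      ∑ e ∈ D.filter (fun e => e.1 = u), F e := by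
    apply Finset.sum_le_sum
    intro e he
    rw [Finset.mem_filter] at he
    exact hF e he.1 he.2
  have h2 : ∑ e ∈ D.filter (fun e => e.1 = u), (if e.2 = h then p else 0) ≤ p := by
    rw [← Finset.sum_filter, Finset.sum_const, nsmul_eq_mul]
    have h3 : ((D.filter (fun e => e.1 = u)).filter (fun e => e.2 = h)).card ≤ 1 := by
      rw [Finset.card_le_one]
      intro e he e' he'
      rw [Finset.mem_filter, Finset.mem_filter] at he he'
      exact Prod.ext (he.1.2.trans he'.1.2.symm) (he.2.trans he'.2.symm)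
    have h4 : (((D.filter (fun e => e.1 = u)).filter (fun e => e.2 = h)).card : ℝ) ≤ 1 := by
      exact_mod_cast h3
    nlinarith
  have h5 : (k : ℝ) ≤ (D.filter (fun e => e.1 = u)).card := by exact_mod_cast hk u
  rw [Finset.sum_sub_distrib, Finset.sum_const, nsmul_eq_mul] at h1
  nlinarith

omit [Fintype V] in
theorem in_bound (D : Finset (V × V)) (h u : V) (F : V × V → ℝ) (p : ℝ) (hp : 0 ≤ p)
    (hF : -p ≤ F (h, u)) :
    -p ≤ ∑ e ∈ (D.filter (fun e => e.1 = h)).filter (fun e => e.2 = u), F e := by
  have h3 : ((D.filter (fun e => e.1 = h)).filter (fun e => e.2 = u)).card ≤ 1 := by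
    rw [Finset.card_le_one]
    intro e he e' he'
    rw [Finset.mem_filter, Finset.mem_filter] at he he'
    exact Prod.ext (he.1.2.trans he'.1.2.symm) (he.2.trans he'.2.symm)
  have h4 : (((D.filter (fun e => e.1 = h)).filter (fun e => e.2 = u)).card : ℝ) ≤ 1 := by
    exact_mod_cast h3
  have h5 : ∑ e ∈ (D.filter (fun e => e.1 = h)).filter (fun e => e.2 = u), (-p) ≤
      ∑ e ∈ (D.filter (fun e => e.1 = h)).filter (fun e => e.2 = u), F e := by
    apply Finset.sum_le_sum
    intro e he
    rw [Finset.mem_filter, Finset.mem_filter] at he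
    have : e = (h, u) := Prod.ext he.1.2 he.2
    rw [this]; exact hF
  rw [Finset.sum_const, nsmul_eq_mul] at h5
  nlinarith

/-- The accounting inequality. -/
theorem accounting (D : Finset (V × V)) (k : ℕ) (hk : 2 ≤ k) (hD : MinOut D k) (h : V)
    (B : Finset V) (hB : h ∉ B) (ζ : ℝ) (hζ : ζ * (2 * k - 1) = 1) (τ : ℝ) (hτ : τ = 1 ∨ τ = -1)
    (y : V → ℝ) (hyh : y h = τ) (hyU : ∀ u ∈ smallSet D B k, y u = -ζ)
    (hy0 : ∀ u, u ≠ h → u ∉ smallSet D B k → y u = 0) :
    Qf D y + Lf D y +
      (-(ζ + ζ ^ 2) * ((D.filter (fun e => e.1 ∈ smallSet D B k ∧ e.2 ∈ smallSet D B k)).card : ℝ) +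
        (ζ * k - 1) * ((B \ smallSet D B k).card : ℝ)) ≤ ζ * D.card + (Bᶜ).card := by
  classical
  obtain ⟨hloop, hout⟩ := hD
  have hk2 : (2 : ℝ) ≤ k := by exact_mod_cast hk
  have hζpos : 0 < ζ := by
    by_contra h
    push Not at h
    nlinarith
  have hζ3 : 3 * ζ ≤ 1 := by nlinarith
  have hζk : ζ * k = (1 + ζ) / 2 := by linarith
  set U := smallSet D B k with hU
  have hUB : U ⊆ B := Finset.filter_subset _ _
  have hhU : h ∉ U := fun h' => hB (hUB h')
  -- no edges between small vertices and the other vertices of B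
  have hsep : ∀ e ∈ D, e.1 ∈ B → e.2 ∈ B → (e.1 ∈ U ↔ e.2 ∈ U) := by
    intro e he h1 h2
    have hadj : (graphOn D B).Reachable e.1 e.2 := by
      apply SimpleGraph.Adj.reachable
      exact ⟨hloop e he, h1, h2, Or.inl he⟩
    have hc := compOf_eq D B e.1 e.2 ((mem_compOf D B e.1 e.2).mpr hadj)
    rw [hU, smallSet, Finset.mem_filter, Finset.mem_filter, hc]
    simp [h1, h2]
  set F : V × V → ℝ := fun e => ζ - (y e.1 * y e.2 + (y e.1 - y e.2) -
    (ζ + ζ ^ 2) * (if e.1 ∈ U ∧ e.2 ∈ U then 1 else 0)) with hF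
  have hsumF : ∑ e ∈ D, F e = ζ * D.card - (Qf D y + Lf D y -
      (ζ + ζ ^ 2) * ((D.filter (fun e => e.1 ∈ U ∧ e.2 ∈ U)).card : ℝ)) := by
    simp only [hF]
    rw [Finset.sum_sub_distrib, Finset.sum_sub_distrib, Finset.sum_add_distrib, ← Finset.mul_sum,
      Finset.card_filter, Finset.sum_const, nsmul_eq_mul]
    unfold Qf Lf
    push_cast
    ring
  -- lower bound for the charges
  set wt : V → ℝ := fun u => if u ∈ U then 0 else if u ∈ B then ζ * k - 1 else -1 with hwt
  have hcharge : ∀ u ∈ Finset.univ.erase h, wt u ≤ ∑ e ∈ D.filter (fun e => e.1 = u), F e +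
      ∑ e ∈ (D.filter (fun e => e.1 = h)).filter (fun e => e.2 = u), F e := by
    intro u hu
    have huh : u ≠ h := Finset.ne_of_mem_erase hu
    by_cases huU : u ∈ U
    · have hyu : y u = -ζ := hyU u huU
      have hwtu : wt u = 0 := by simp [hwt, huU]
      rw [hwtu]
      have hval : ∀ e ∈ D, e.1 = u → e.2 ≠ h → 2 * ζ ≤ F e := by
        intro e he he1 he2
        simp only [hF, he1, hyu]
        by_cases h2 : e.2 ∈ U
        · rw [hyU e.2 h2, if_pos ⟨huU, h2⟩]; nlinarith
        · rw [hy0 e.2 he2 h2, if_neg (fun hh => h2 hh.2)]; nlinarith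
      rcases hτ with hτ1 | hτ1
      · have hout' := out_bound D k hout h u F (2 * ζ) 0 (by linarith) le_rfl (by
          intro e he he1
          by_cases he2 : e.2 = h
          · rw [if_pos he2]
            simp only [hF, he1, he2, hyu, hyh, hτ1]
            rw [if_neg (fun hh => hhU hh.2)]; nlinarith
          · rw [if_neg he2]
            linarith [hval e he he1 he2])
        have hin' := in_bound D h u F (1 - ζ) (by linarith) (by
          simp only [hF, hyu, hyh, hτ1]
          rw [if_neg (fun hh => hhU hh.1)]; nlinarith)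
        nlinarith
      · have hout' := out_bound D k hout h u F (2 * ζ) (1 + ζ) (by linarith) (by linarith) (by
          intro e he he1
          by_cases he2 : e.2 = h
          · rw [if_pos he2]
            simp only [hF, he1, he2, hyu, hyh, hτ1]
            rw [if_neg (fun hh => hhU hh.2)]; nlinarith
          · rw [if_neg he2]
            linarith [hval e he he1 he2])
        have hin' := in_bound D h u F 0 le_rfl (by
          simp only [hF, hyu, hyh, hτ1]
          rw [if_neg (fun hh => hhU hh.1)]; nlinarith)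
        nlinarith
    · have hyu : y u = 0 := hy0 u huh huU
      have hin1 : ∀ p : ℝ, F (h, u) = ζ - τ := by
        intro p
        simp only [hF, hyu, hyh]
        rw [if_neg (fun hh => hhU hh.1)]; ring
      by_cases huB : u ∈ B
      · have hwtu : wt u = ζ * k - 1 := by simp [hwt, huU, huB]
        rw [hwtu]
        have hval : ∀ e ∈ D, e.1 = u → e.2 ≠ h → ζ ≤ F e := by
          intro e he he1 he2
          have h2 : e.2 ∉ U := by
            intro h2
            exact huU ((he1 ▸ (hsep e he (by rw [he1]; exact huB) (hUB h2))).mpr h2)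
          simp only [hF, he1, hyu]
          rw [hy0 e.2 he2 h2, if_neg (fun hh => h2 hh.2)]; nlinarith
        have hvalh : ∀ e ∈ D, e.1 = u → e.2 = h → F e = ζ + τ := by
          intro e he he1 he2
          simp only [hF, he1, he2, hyu, hyh]
          rw [if_neg (fun hh => hhU hh.2)]; ring
        rcases hτ with hτ1 | hτ1
        · have hout' := out_bound D k hout h u F ζ 0 (by linarith) le_rfl (by
            intro e he he1
            by_cases he2 : e.2 = h
            · rw [if_pos he2, hvalh e he he1 he2, hτ1]; linarith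
            · rw [if_neg he2]
              linarith [hval e he he1 he2])
          have hin' := in_bound D h u F (1 - ζ) (by linarith) (by
            rw [hin1 0, hτ1]; linarith)
          nlinarith
        · have hout' := out_bound D k hout h u F ζ 1 (by linarith) (by linarith) (by
            intro e he he1
            by_cases he2 : e.2 = h
            · rw [if_pos he2, hvalh e he he1 he2, hτ1]; linarith
            · rw [if_neg he2]
              linarith [hval e he he1 he2])
          have hin' := in_bound D h u F 0 le_rfl (by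
            rw [hin1 0, hτ1]; linarith)
          nlinarith
      · have hwtu : wt u = -1 := by simp [hwt, huU, huB]
        rw [hwtu]
        have hval : ∀ e ∈ D, e.1 = u → e.2 ≠ h → 0 ≤ F e := by
          intro e he he1 he2
          simp only [hF, he1, hyu]
          rw [if_neg (fun hh => huU hh.1)]
          by_cases h2 : e.2 ∈ U
          · rw [hyU e.2 h2]; linarith
          · rw [hy0 e.2 he2 h2]; linarith
        have hvalh : ∀ e ∈ D, e.1 = u → e.2 = h → F e = ζ + τ := by
          intro e he he1 he2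
          simp only [hF, he1, he2, hyu, hyh]
          rw [if_neg (fun hh => hhU hh.2)]; ring
        rcases hτ with hτ1 | hτ1
        · have hout' := out_bound D k hout h u F 0 0 le_rfl le_rfl (by
            intro e he he1
            by_cases he2 : e.2 = h
            · rw [if_pos he2, hvalh e he he1 he2, hτ1]; linarith
            · rw [if_neg he2]
              linarith [hval e he he1 he2])
          have hin' := in_bound D h u F (1 - ζ) (by linarith) (by
            rw [hin1 0, hτ1]; linarith)
          nlinarith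
        · have hout' := out_bound D k hout h u F 0 1 le_rfl (by linarith) (by
            intro e he he1
            by_cases he2 : e.2 = h
            · rw [if_pos he2, hvalh e he he1 he2, hτ1]; linarith
            · rw [if_neg he2]
              linarith [hval e he he1 he2])
          have hin' := in_bound D h u F 0 le_rfl (by
            rw [hin1 0, hτ1]; linarith)
          nlinarith
  have htotal : ∑ u ∈ Finset.univ.erase h, wt u ≤ ∑ e ∈ D, F e := by
    rw [charge_sum D hloop h F]
    exact Finset.sum_le_sum hcharge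
  have hwtsum : (ζ * k - 1) * ((B \ U).card : ℝ) - (Bᶜ).card ≤ ∑ u ∈ Finset.univ.erase h, wt u := by
    have h1 : ∑ u, wt u = (ζ * k - 1) * ((B \ U).card : ℝ) - (Bᶜ).card := by
      have e1 : ∀ u, wt u = (ζ * k - 1) * (if u ∈ B \ U then 1 else 0) - (if u ∈ Bᶜ then 1 else 0) := by
        intro u
        simp only [hwt, Finset.mem_sdiff, Finset.mem_compl]
        by_cases h1 : u ∈ U
        · have h2 := hUB h1
          simp [h1, h2]
        · by_cases h2 : u ∈ B <;> simp [h1, h2]
      rw [Finset.sum_congr rfl (fun u _ => e1 u), Finset.sum_sub_distrib, ← Finset.mul_sum,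
        Finset.sum_boole, Finset.sum_boole, Finset.filter_mem_eq_inter, Finset.filter_mem_eq_inter,
        Finset.univ_inter, Finset.univ_inter]
    have h2 : wt h = -1 := by simp [hwt, hhU, hB]
    have h3 := Finset.add_sum_erase Finset.univ wt (Finset.mem_univ h)
    rw [h1, h2] at h3
    linarith
  rw [hsumF] at htotal
  linarith

end Pool.Agent.Helper953
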