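import Pool.Agent.Helper953_LLS.Dec

namespace Pool.Agent.Helper953

open Finset

variable {V : Type*} [Fintype V] [DecidableEq V]

/-- `Proc D C W a q`: the vertices of `W`, holding the fractional values `a`, can be decided at
total cost `q + κ C |W|` for the functional `Q + κ L² + ℓ L`. -/
def Proc (D : Finset (V × V)) (C : ℝ) (W : Finset V) (a : V → ℝ) (q : ℝ) : Prop :=
  ∀ (κ ℓ : ℝ), 0 ≤ κ → ∀ y : V → ℝ, (∀ u ∈ W, y u = a u) → ∃ y' : V → ℝ,
    (∀ u ∈ W, y' u = 1 ∨ y' u = -1) ∧ (∀ u, u ∉ W → y' u = y u) ∧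
    Psi D κ ℓ y' ≤ Psi D κ ℓ y + q + κ * C * W.card

omit [Fintype V] [DecidableEq V] in
theorem Proc.mono {D : Finset (V × V)} {C : ℝ} {W : Finset V} {a : V → ℝ} {q q' : ℝ}
    (h : Proc D C W a q) (hq : q ≤ q') : Proc D C W a q' := by
  intro κ ℓ hκ y hy
  obtain ⟨y', h1, h2, h3⟩ := h κ ℓ hκ y hy
  exact ⟨y', h1, h2, by linarith⟩

omit [Fintype V] [DecidableEq V] in
theorem proc_empty (D : Finset (V × V)) (C : ℝ) (a : V → ℝ) : Proc D C ∅ a 0 := by
  intro κ ℓ _ y _
  exact ⟨y, by simp, by simp, by simp⟩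

omit [Fintype V] in
theorem proc_union {D : Finset (V × V)} {C : ℝ} {W W' : Finset V} {a : V → ℝ} {q q' : ℝ}
    (hd : Disjoint W W') (h : Proc D C W a q) (h' : Proc D C W' a q') :
    Proc D C (W ∪ W') a (q + q') := by
  intro κ ℓ hκ y hy
  obtain ⟨z, z1, z2, z3⟩ := h κ ℓ hκ y (fun u hu => hy u (Finset.mem_union_left _ hu))
  obtain ⟨y', y1, y2, y3⟩ := h' κ ℓ hκ z (fun u hu => by
    rw [z2 u (fun hu' => (Finset.disjoint_left.mp hd) hu' hu)]
    exact hy u (Finset.mem_union_right _ hu))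
  refine ⟨y', ?_, ?_, ?_⟩
  · intro u hu
    by_cases hu' : u ∈ W'
    · exact y1 u hu'
    · rw [y2 u hu']
      rcases Finset.mem_union.mp hu with h | h
      · exact z1 u h
      · exact absurd h hu'
  · intro u hu
    rw [Finset.mem_union, not_or] at hu
    rw [y2 u hu.2, z2 u hu.1]
  · rw [Finset.card_union_of_disjoint hd]
    push_cast
    nlinarith

omit [Fintype V] in
theorem proc_biUnion {ι : Type*} [DecidableEq ι] {D : Finset (V × V)} {C : ℝ} (s : Finset ι)
    (W : ι → Finset V) (a : V → ℝ) (q : ι → ℝ)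
    (hd : ∀ i ∈ s, ∀ j ∈ s, i ≠ j → Disjoint (W i) (W j)) (h : ∀ i ∈ s, Proc D C (W i) a (q i)) :
    Proc D C (s.biUnion W) a (∑ i ∈ s, q i) := by
  induction s using Finset.induction_on with
  | empty => simpa using proc_empty D C a
  | insert i s hi ih =>
    rw [Finset.biUnion_insert, Finset.sum_insert hi]
    apply proc_union
    · rw [Finset.disjoint_biUnion_right]
      intro j hj
      exact hd i (Finset.mem_insert_self _ _) j (Finset.mem_insert_of_mem hj)
        (fun h => hi (h ▸ hj))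
    · exact h i (Finset.mem_insert_self _ _)
    · exact ih (fun i' hi' j hj => hd i' (Finset.mem_insert_of_mem hi') j
        (Finset.mem_insert_of_mem hj)) (fun i' hi' => h i' (Finset.mem_insert_of_mem hi'))

omit [Fintype V] [DecidableEq V] in
theorem proc_family {Ω : Type*} (s : Finset Ω) (hs : s.Nonempty) (D : Finset (V × V)) (C : ℝ)
    (b : Finset V) (a : V → ℝ) (δ : Ω → V → ℝ) (h0 : ∀ ω ∈ s, ∀ u, u ∉ b → δ ω u = 0)
    (h1 : ∀ ω ∈ s, ∀ u ∈ b, a u + δ ω u = 1 ∨ a u + δ ω u = -1) (hsum : ∑ ω ∈ s, δ ω = 0) (q : ℝ)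
    (hq : ∑ ω ∈ s, Qf D (δ ω) ≤ s.card * q) (hC : ∀ ω ∈ s, (Lf D (δ ω)) ^ 2 ≤ C * b.card) :
    Proc D C b a q := by
  intro κ ℓ hκ y hy
  obtain ⟨ω, hω, h⟩ := exists_step s hs D κ ℓ y δ hsum (q + κ * C * b.card) (by
    rw [Finset.sum_add_distrib, mul_add]
    apply add_le_add hq
    rw [← nsmul_eq_mul, ← Finset.sum_const]
    apply Finset.sum_le_sum
    intro ω hω
    rw [mul_assoc]
    exact mul_le_mul_of_nonneg_left (hC ω hω) hκ)
  refine ⟨y + δ ω, ?_, ?_, ?_⟩
  · intro u hu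
    rw [Pi.add_apply, hy u hu]
    exact h1 ω hω u hu
  · intro u hu
    rw [Pi.add_apply, h0 ω hω u hu, add_zero]
  · linarith

omit [Fintype V] [DecidableEq V] in
theorem proc_sign (D : Finset (V × V)) (C : ℝ) (b : Finset V) (a : V → ℝ) (δ : V → ℝ)
    (ha : ∀ u ∈ b, a u = 0) (h0 : ∀ u, u ∉ b → δ u = 0)
    (h1 : ∀ u ∈ b, δ u = 1 ∨ δ u = -1) (q : ℝ)
    (hq : Qf D δ ≤ q) (hC : (Lf D δ) ^ 2 ≤ C * b.card) :
    Proc D C b a q := by
  have hQn : Qf D (-δ) = Qf D δ := by simp [Qf]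
  have hLn : Lf D (-δ) = - Lf D δ := Lf_neg D δ
  apply proc_family (Finset.univ : Finset Bool) Finset.univ_nonempty D C b a
    (fun b => if b then δ else -δ)
  · intro ω _ u hu
    cases ω <;> simp [h0 u hu]
  · intro ω _ u hu
    rw [ha u hu]
    rcases h1 u hu with h | h <;> cases ω <;> simp [h]
  · simp
  · simp [hQn]; linarith
  · intro ω _
    cases ω <;> simp [hLn, hC]

/-- Total degree of a vertex. -/
def dg (D : Finset (V × V)) (w : V) : ℕ := (D.filter (fun e => e.1 = w ∨ e.2 = w)).card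

omit [Fintype V] in
theorem abs_sv_le_dg (D : Finset (V × V)) (w : V) : |sv D w| ≤ dg D w := by
  unfold sv Lf dg
  rw [Finset.card_filter, Nat.cast_sum]
  refine (Finset.abs_sum_le_sum_abs _ _).trans (Finset.sum_le_sum ?_)
  intro e _
  by_cases h1 : e.1 = w <;> by_cases h2 : e.2 = w <;> simp [Pi.single_apply, h1, h2]

omit [Fintype V] in
theorem abs_Lf_le (D : Finset (V × V)) [Fintype V] (b : Finset V) (δ : V → ℝ) (c M : ℝ)
    (hM : 0 ≤ M)
    (h0 : ∀ u, u ∉ b → δ u = 0) (h1 : ∀ u ∈ b, |δ u| ≤ c) (h2 : ∀ u ∈ b, |sv D u| ≤ M) :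
    |Lf D δ| ≤ c * M * b.card := by
  rw [Lf_eq]
  have e : ∑ v, δ v * sv D v = ∑ v ∈ b, δ v * sv D v := by
    symm
    apply Finset.sum_subset (Finset.subset_univ b)
    intro u _ hu
    rw [h0 u hu, zero_mul]
  rw [e]
  refine (Finset.abs_sum_le_sum_abs _ _).trans ?_
  calc ∑ v ∈ b, |δ v * sv D v| ≤ ∑ v ∈ b, c * M := by
        apply Finset.sum_le_sum
        intro v hv
        rw [abs_mul]
        exact mul_le_mul (h1 v hv) (h2 v hv) (abs_nonneg _) ((abs_nonneg _).trans (h1 v hv))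
    _ = c * M * b.card := by rw [Finset.sum_const, nsmul_eq_mul]; ring

omit [Fintype V] in
theorem noise_le (D : Finset (V × V)) [Fintype V] (b : Finset V) (hb : b.Nonempty) (δ : V → ℝ)
    (c M : ℝ) (hM : 0 ≤ M)
    (h0 : ∀ u, u ∉ b → δ u = 0) (h1 : ∀ u ∈ b, |δ u| ≤ c) (h2 : ∀ u ∈ b, |sv D u| ≤ M)
    (hc : c * b.card ≤ M) :
    (Lf D δ) ^ 2 ≤ M ^ 4 * b.card := by
  have h := abs_Lf_le D b δ c M hM h0 h1 h2
  have hb1 : (1 : ℝ) ≤ b.card := by exact_mod_cast hb.card_pos
  have h3 : |Lf D δ| ≤ M ^ 2 := by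
    calc |Lf D δ| ≤ c * M * b.card := h
      _ = (c * b.card) * M := by ring
      _ ≤ M * M := mul_le_mul_of_nonneg_right hc hM
      _ = M ^ 2 := by ring
  have h4 : (Lf D δ) ^ 2 ≤ (M ^ 2) ^ 2 := by
    rw [← sq_abs]
    exact pow_le_pow_left₀ (abs_nonneg _) h3 2
  calc (Lf D δ) ^ 2 ≤ (M ^ 2) ^ 2 := h4
    _ = M ^ 4 * 1 := by ring
    _ ≤ M ^ 4 * b.card := mul_le_mul_of_nonneg_left hb1 (by positivity)

/-- Adjacency in the underlying graph. -/
def Ad (D : Finset (V × V)) (x y : V) : Prop := (x, y) ∈ D ∨ (y, x) ∈ D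

omit [Fintype V] in
/-- The choice of an edge between `w` and each of its neighbours. -/
theorem exists_edge_set (D : Finset (V × V)) (w : V) (T : Finset V) (hw : w ∉ T)
    (hT : ∀ u ∈ T, Ad D w u) :
    ∃ E : Finset (V × V), E ⊆ D ∧ E.card = T.card ∧
      ∀ e ∈ E, (e.1 = w ∧ e.2 ∈ T) ∨ (e.2 = w ∧ e.1 ∈ T) := by
  refine ⟨T.image (fun u => if (w, u) ∈ D then (w, u) else (u, w)), ?_, ?_, ?_⟩
  · intro e he
    rw [Finset.mem_image] at he
    obtain ⟨u, hu, rfl⟩ := he
    by_cases h : (w, u) ∈ D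
    · simpa [h] using h
    · rcases hT u hu with h' | h'
      · exact absurd h' h
      · simpa [h] using h'
  · apply Finset.card_image_of_injOn
    intro u hu u' hu' h
    have huw : u ≠ w := fun h => hw (h ▸ hu)
    have huw' : u' ≠ w := fun h => hw (h ▸ hu')
    dsimp only at h
    split_ifs at h with h1 h2 h2
    · exact (Prod.mk.inj h).2
    · exact absurd (Prod.mk.inj h).1.symm huw'
    · exact absurd (Prod.mk.inj h).1 huw
    · exact (Prod.mk.inj h).1
  · intro e he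
    rw [Finset.mem_image] at he
    obtain ⟨u, hu, rfl⟩ := he
    by_cases h : (w, u) ∈ D
    · left; simp [h, hu]
    · right; simp [h, hu]

omit [Fintype V] in
theorem card_le_dg (D : Finset (V × V)) (w : V) (T : Finset V) (hw : w ∉ T)
    (hT : ∀ u ∈ T, Ad D w u) : T.card ≤ dg D w := by
  obtain ⟨E, hE, hc, hE'⟩ := exists_edge_set D w T hw hT
  rw [← hc]
  apply Finset.card_le_card
  intro e he
  rw [Finset.mem_filter]
  refine ⟨hE he, ?_⟩
  rcases hE' e he with h | h
  · exact Or.inl h.1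
  · exact Or.inr h.1

/-- Signs on a star. -/
def starSign (w : V) (T : Finset V) : V → ℝ := fun u => if u = w then 1 else if u ∈ T then -1 else 0

omit [Fintype V] in
theorem Qf_star (D : Finset (V × V)) (hD : ∀ e ∈ D, e.1 ≠ e.2) (w : V) (T : Finset V)
    (hw : w ∉ T) (hT : ∀ u ∈ T, Ad D w u) (hind : ∀ u ∈ T, ∀ u' ∈ T, ¬ Ad D u u') :
    Qf D (starSign w T) ≤ - (T.card : ℝ) := by
  obtain ⟨E, hE, hc, hE'⟩ := exists_edge_set D w T hw hT
  have hterm : ∀ e ∈ D, starSign w T e.1 * starSign w T e.2 ≤ 0 := by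
    intro e he
    have hne := hD e he
    unfold starSign
    by_cases h1 : e.1 = w
    · have h2 : e.2 ≠ w := fun h => hne (h1.trans h.symm)
      rw [if_pos h1, if_neg h2]
      split_ifs <;> norm_num
    · rw [if_neg h1]
      by_cases h2 : e.2 = w
      · rw [if_pos h2]
        split_ifs <;> norm_num
      · rw [if_neg h2]
        by_cases h3 : e.1 ∈ T
        · by_cases h4 : e.2 ∈ T
          · exact absurd (Or.inl he) (hind e.1 h3 e.2 h4)
          · simp [h4]
        · simp [h3]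
  have h1 : Qf D (starSign w T) ≤ ∑ e ∈ E, starSign w T e.1 * starSign w T e.2 := by
    unfold Qf
    rw [← Finset.sum_sdiff hE]
    have : ∑ e ∈ D \ E, starSign w T e.1 * starSign w T e.2 ≤ 0 :=
      Finset.sum_nonpos (fun e he => hterm e (Finset.mem_sdiff.mp he).1)
    linarith
  have h2 : ∑ e ∈ E, starSign w T e.1 * starSign w T e.2 = - (T.card : ℝ) := by
    rw [← hc, Finset.card_eq_sum_ones]
    push_cast
    rw [← Finset.sum_neg_distrib]
    apply Finset.sum_congr rfl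
    intro e he
    unfold starSign
    rcases hE' e he with ⟨h, h'⟩ | ⟨h, h'⟩
    · have h2 : e.2 ≠ w := fun h'' => hw (h'' ▸ h')
      simp [h, h2, h']
    · have h2 : e.1 ≠ w := fun h'' => hw (h'' ▸ h')
      simp [h, h2, h']
  linarith

omit [Fintype V] in
theorem proc_star (D : Finset (V × V)) [Fintype V] (hD : ∀ e ∈ D, e.1 ≠ e.2) (M : ℝ) (w : V)
    (T : Finset V)
    (hw : w ∉ T) (hT : ∀ u ∈ T, Ad D w u) (hind : ∀ u ∈ T, ∀ u' ∈ T, ¬ Ad D u u')
    (a : V → ℝ) (ha : ∀ u ∈ insert w T, a u = 0) (hM : ∀ u ∈ insert w T, (dg D u : ℝ) + 1 ≤ M) :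
    Proc D (M ^ 4) (insert w T) a (- (T.card : ℝ)) := by
  have hM0 : 0 ≤ M := by
    have := hM w (Finset.mem_insert_self _ _)
    have h0 : (0 : ℝ) ≤ dg D w := Nat.cast_nonneg _
    linarith
  apply proc_sign D _ _ a (starSign w T) ha
  · intro u hu
    rw [Finset.mem_insert, not_or] at hu
    simp [starSign, hu.1, hu.2]
  · intro u hu
    unfold starSign
    by_cases h : u = w
    · left; simp [h]
    · right
      rw [Finset.mem_insert] at hu
      rcases hu with h' | h'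
      · exact absurd h' h
      · simp [h, h']
  · exact Qf_star D hD w T hw hT hind
  · apply noise_le D _ (Finset.insert_nonempty _ _) _ 1 M hM0
    · intro u hu
      rw [Finset.mem_insert, not_or] at hu
      simp [starSign, hu.1, hu.2]
    · intro u _
      unfold starSign
      split_ifs <;> norm_num
    · intro u hu
      have := hM u hu
      linarith [abs_sv_le_dg D u]
    · rw [Finset.card_insert_of_notMem hw]
      have h1 := card_le_dg D w T hw hT
      have h2 := hM w (Finset.mem_insert_self _ _)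
      have h3 : (T.card : ℝ) ≤ dg D w := by exact_mod_cast h1
      push_cast
      linarith

end Pool.Agent.Helper953
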